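import Pool.Agent.PWC.Pell

set_option autoImplicit false

/-! The self-reproducing chain `w' = b_{4w} / 12` of closed indices. -/

namespace Pool.Agent.PWC

open Pool.Agent.Helper98.PowPart

/-- `w_0 = 3`, `w_{i+1} = b_{4 w_i} / 12`. -/
def w : ℕ → ℕ
  | 0 => 3
  | (i + 1) => b (4 * w i) / 12

lemma b_four_mul (m : ℕ) : ∃ u : ℕ, b (4 * m) = 12 * u ∧ u % 8 = m % 8 ∧ a (4 * m) % 8 = 1 := by
  induction m with
  | zero => exact ⟨0, by simp [b_zero], by simp, by simp [a_zero]⟩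
  | succ m ih =>
    obtain ⟨u, h1, h2, h3⟩ := ih
    refine ⟨a (4 * m) + 17 * u, ?_, ?_, ?_⟩
    · rw [show 4 * (m + 1) = 4 * m + 4 by ring, b_add_four, h1]; ring
    · omega
    · rw [show 4 * (m + 1) = 4 * m + 4 by ring, a_add_four, h1]; omega

lemma w_succ (i : ℕ) : b (4 * w i) = 12 * w (i + 1) := by
  obtain ⟨u, h1, -, -⟩ := b_four_mul (w i)
  rw [w, h1]; omega

lemma w_mod (i : ℕ) : w i % 8 = 3 := by
  induction i with
  | zero => rfl
  | succ i ih =>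
    obtain ⟨u, h1, h2, -⟩ := b_four_mul (w i)
    have h3 := w_succ i
    rw [h1] at h3
    have h4 : u = w (i + 1) := by omega
    omega

lemma w_ge (i : ℕ) : 3 ≤ w i := by
  have := w_mod i
  omega

/-- `6 (w' + 1) = a_{2w-2} b_{2w+2}` -/
lemma w_plus (i : ℕ) : 6 * (w (i + 1) + 1) = a (2 * (w i - 1)) * b (2 * (w i + 1)) := by
  have h1 := w_ge i
  have h2 := w_succ i
  have h3 := b_plus_twelve (v := 2 * (w i - 1)) ⟨w i - 1, by ring⟩
  rw [show 2 * (2 * (w i - 1)) + 4 = 4 * w i by omega,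
    show 2 * (w i - 1) + 4 = 2 * (w i + 1) by omega, h2] at h3
  omega

/-- `6 (w' - 1) = b_{2w-2} a_{2w+2}` -/
lemma w_minus (i : ℕ) : 6 * (w (i + 1) - 1) = b (2 * (w i - 1)) * a (2 * (w i + 1)) := by
  have h1 := w_ge i
  have h2 := w_succ i
  have h3 := b_minus_twelve (v := 2 * (w i - 1)) ⟨w i - 1, by ring⟩
  rw [show 2 * (2 * (w i - 1)) + 4 = 4 * w i by omega,
    show 2 * (w i - 1) + 4 = 2 * (w i + 1) by omega, h2] at h3
  omega

lemma odd_quot_plus {x y : ℕ} (hx : x % 8 = 3) (hy : y % 8 = 3) (h : x + 1 ∣ y + 1) :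
    Odd ((y + 1) / (x + 1)) := by
  obtain ⟨t, ht⟩ := h
  rw [ht, Nat.mul_div_cancel_left t (by omega)]
  by_contra hcon
  rw [Nat.not_odd_iff_even] at hcon
  obtain ⟨s, hs⟩ := hcon
  obtain ⟨z, hz⟩ : ∃ z, x + 1 = 4 * z := ⟨(x + 1) / 4, by omega⟩
  have h1 : y + 1 = 8 * (z * s) := by rw [ht, hz, hs]; ring
  omega

lemma odd_quot_minus {x y : ℕ} (hx : x % 8 = 3) (hy : y % 8 = 3) (h : x - 1 ∣ y - 1) :
    Odd ((y - 1) / (x - 1)) := by
  obtain ⟨t, ht⟩ := h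
  rw [ht, Nat.mul_div_cancel_left t (by omega)]
  by_contra hcon
  rw [Nat.not_odd_iff_even] at hcon
  obtain ⟨s, hs⟩ := hcon
  obtain ⟨z, hz⟩ : ∃ z, x - 1 = 2 * z := ⟨(x - 1) / 2, by omega⟩
  have h1 : y - 1 = 4 * (z * s) := by rw [ht, hz, hs]; ring
  omega

/-- multiplying the index by an odd quotient keeps the divisibility of the `a`'s -/
lemma a_two_dvd {m M : ℕ} (h : m ∣ M) (hodd : Odd (M / m)) :
    a (2 * m) ∣ a (2 * M) := by
  apply a_dvd (Nat.mul_dvd_mul_left 2 h)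
  rwa [Nat.mul_div_mul_left _ _ (by norm_num : 0 < 2)]

/-- **The chain reproduces itself.** -/
lemma chain (i : ℕ) : w i ∣ w (i + 1) ∧ w i + 1 ∣ w (i + 1) + 1 ∧ w i - 1 ∣ w (i + 1) - 1 := by
  induction i with
  | zero =>
    have h : w 1 = 1155 := by
      have h1 : b (4 * w 0) = 12 * w 1 := w_succ 0
      have h2 : b (4 * w 0) = 13860 := by decide +kernel
      omega
    have h0 : w 0 = 3 := rfl
    rw [show (0 : ℕ) + 1 = 1 from rfl, h, h0]
    norm_num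
  | succ i ih =>
    obtain ⟨h1, h2, h3⟩ := ih
    have hw := w_ge i
    have hw1 := w_ge (i + 1)
    have hq2 := odd_quot_plus (w_mod i) (w_mod (i + 1)) h2
    have hq3 := odd_quot_minus (w_mod i) (w_mod (i + 1)) h3
    refine ⟨?_, ?_, ?_⟩
    · have h4 : b (4 * w i) ∣ b (4 * w (i + 1)) := b_dvd (Nat.mul_dvd_mul_left 4 h1)
      rw [w_succ i, w_succ (i + 1)] at h4
      exact Nat.dvd_of_mul_dvd_mul_left (by norm_num) h4
    · have h4 : a (2 * (w i - 1)) * b (2 * (w i + 1)) ∣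
          a (2 * (w (i + 1) - 1)) * b (2 * (w (i + 1) + 1)) :=
        mul_dvd_mul (a_two_dvd h3 hq3) (b_dvd (Nat.mul_dvd_mul_left 2 h2))
      rw [← w_plus i, ← w_plus (i + 1)] at h4
      exact Nat.dvd_of_mul_dvd_mul_left (by norm_num) h4
    · have h4 : b (2 * (w i - 1)) * a (2 * (w i + 1)) ∣
          b (2 * (w (i + 1) - 1)) * a (2 * (w (i + 1) + 1)) :=
        mul_dvd_mul (b_dvd (Nat.mul_dvd_mul_left 2 h3)) (a_two_dvd h2 hq2)
      rw [← w_minus i, ← w_minus (i + 1)] at h4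
      exact Nat.dvd_of_mul_dvd_mul_left (by norm_num) h4

/-! ### the three gains -/

lemma gain_zero (i : ℕ) : ∃ r : ℕ, w (i + 1) = w i * r ∧ r ^ 2 ∣ b (4 * w (i + 1)) := by
  obtain ⟨r, hr⟩ := (chain i).1
  refine ⟨r, hr, ?_⟩
  have hw1 := w_ge (i + 1)
  have hr0 : 0 < r := by
    rcases Nat.eq_zero_or_pos r with h | h
    · rw [h, mul_zero] at hr; omega
    · exact h
  have h1 : r ∣ b (4 * w i) := by
    rw [w_succ i, hr]
    exact Dvd.dvd.mul_left (dvd_mul_left r (w i)) 12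
  have h2 := lift hr0 h1
  rw [mul_assoc, ← hr] at h2
  refine dvd_trans ?_ h2
  rw [sq]
  exact Nat.mul_dvd_mul_left r h1

lemma gain_plus (i : ℕ) : ∃ d : ℕ, 0 < d ∧ d ^ 2 ∣ b (2 * (w (i + 1) + 1)) ∧
    b (2 * (w i + 1)) ≤ 6 * ((w i + 1) * d) :=
  gain_six (by omega) (chain i).2.1 (by rw [w_plus i]; exact dvd_mul_left _ _)

lemma gain_minus (i : ℕ) : ∃ d : ℕ, 0 < d ∧ d ^ 2 ∣ b (2 * (w (i + 1) - 1)) ∧
    b (2 * (w i - 1)) ≤ 6 * ((w i - 1) * d) :=
  gain_six (by have := w_ge i; omega) (chain i).2.2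
    (by rw [w_minus i]; exact dvd_mul_right _ _)

/-! ### the products of consecutive integers -/

/-- `n (n+1) (n+2) (n+3) = (a_k b_k)^2 b_{2m} b_{2m+4}` for even `m`, `k = m + 1`,
`n = 2 b_m b_{m+2}` -/
lemma four_prod {m : ℕ} (h : Even m) :
    2 * (b m * b (m + 2)) * (2 * (b m * b (m + 2)) + 1) * (2 * (b m * b (m + 2)) + 2) *
      (2 * (b m * b (m + 2)) + 3) =
    (a (m + 1) * b (m + 1)) ^ 2 * (b (2 * m) * b (2 * (m + 2))) := by
  have h1 := third h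
  have h2 := norm_odd h.add_one
  have h3 := fourth h
  rw [b_two_mul, b_two_mul]
  have e1 : 2 * (b m * b (m + 2)) + 1 = a (m + 1) ^ 2 := h1.symm
  have e2 : 2 * (b m * b (m + 2)) + 2 = 2 * b (m + 1) ^ 2 := by omega
  have e3 : 2 * (b m * b (m + 2)) + 3 = a m * a (m + 2) := by omega
  rw [e1, e2, e3]
  ring

end Pool.Agent.PWC
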