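import Pool.Agent.PWC.ChainThree

set_option autoImplicit false

/-! Powerful divisors of `u (v (i+1))` and `u (v (i+1) + 1)` along the chain. -/

namespace Pool.Agent.PWC

/-- `v (i+1) / v i` -/
def R (i : ℕ) : ℕ := v (i + 1) / v i

/-- `(B (i+1) + 1) / (B i + 1)` -/
def S (i : ℕ) : ℕ := (B (i + 1) + 1) / (B i + 1)

lemma v_eq (i : ℕ) : v (i + 1) = v i * R i := (Nat.mul_div_cancel' (chain3 i).1).symm

lemma A_eq (i : ℕ) : B (i + 1) + 1 = (B i + 1) * S i :=
  (Nat.mul_div_cancel' (dvd_trans (dvd_mul_left _ _) (chain3 i).2.1)).symm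

lemma v_pos (i : ℕ) : 0 < v i := by rw [v]; omega

lemma R_pos (i : ℕ) : 0 < R i := by
  have h1 := v_eq i
  have h2 := v_pos (i + 1)
  rcases Nat.eq_zero_or_pos (R i) with h | h
  · rw [h, mul_zero] at h1; omega
  · exact h

lemma S_pos (i : ℕ) : 0 < S i := by
  have h1 := A_eq i
  rcases Nat.eq_zero_or_pos (S i) with h | h
  · rw [h, mul_zero] at h1; omega
  · exact h

/-- `v (i+1) * R i ∣ u (v (i+1))` -/
lemma vR_dvd (i : ℕ) : v (i + 1) * R i ∣ u (v (i + 1)) := by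
  have h1 : R i ∣ u (v i) := by rw [v_succ, v_eq i]; exact dvd_mul_left _ _
  have h2 := lift3 (R_pos i) h1
  rw [← v_eq i, v_succ i] at h2
  rw [mul_comm]
  exact h2

lemma R_dvd (i : ℕ) : R i ∣ R (i + 1) := by
  have h1 := vR_dvd i
  rw [v_succ (i + 1), v_eq (i + 1)] at h1
  exact Nat.dvd_of_mul_dvd_mul_left (v_pos (i + 1)) h1

lemma prime_R (i p : ℕ) (hp : p.Prime) (hp3 : p ≠ 3) (h : p ∣ v i) : p ∣ R i := by
  induction i with
  | zero =>
    have h1 : v 0 = 3 := rfl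
    rw [h1] at h
    exact absurd ((Nat.prime_dvd_prime_iff_eq hp Nat.prime_three).1 h) hp3
  | succ i ih =>
    refine dvd_trans ?_ (R_dvd i)
    rw [v_eq i] at h
    rcases (hp.dvd_mul).1 h with h1 | h1
    · exact ih h1
    · exact h1

lemma three_dvd_v (i : ℕ) : 3 ∣ v i := by
  induction i with
  | zero => exact dvd_refl _
  | succ i ih => exact dvd_trans ih (chain3 i).1

/-- `B i + 1` and `B i` divide `u (B i + 1)` -/
lemma AB_dvd (i : ℕ) : B i + 1 ∣ u (B i + 1) ∧ B i ∣ u (B i + 1) := by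
  rcases Nat.eq_zero_or_pos i with h | h
  · subst h
    exact ⟨by decide, by decide⟩
  · obtain ⟨j, rfl⟩ := Nat.exists_eq_succ_of_ne_zero h.ne'
    rw [Nat.succ_eq_add_one]
    obtain ⟨-, h2, h3⟩ := chain3 j
    have hodd := B_odd j
    constructor
    · have h4 := A_dvd_u hodd h2 h3
      rwa [← A_succ j] at h4
    · have h4 := B_dvd_u hodd h2 h3
      rwa [← B_succ j] at h4

/-- `(B (i+1) + 1) * S i ∣ u (2 (B (i+1) + 1))` -/
lemma AS_dvd (i : ℕ) : (B (i + 1) + 1) * S i ∣ u (2 * (B (i + 1) + 1)) := by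
  have hodd := B_odd i
  obtain ⟨Q, hQ, hQ1, hQ2⟩ := t_half hodd
  obtain ⟨hA, hB⟩ := AB_dvd i
  have hcop : Nat.Coprime (B i + 1) (B i) := by
    rw [Nat.coprime_comm]; exact (Nat.coprime_self_add_right).2 (Nat.coprime_one_right _)
  obtain ⟨e, he⟩ := hcop.mul_dvd_of_dvd_of_dvd hA hB
  have hApos : 0 < B i + 1 := Nat.succ_pos _
  have hQpos : 0 < Q := by omega
  have hupos : 0 < u (B i + 1) := u_pos hApos
  -- `A' = P Q`
  have hA' : B (i + 1) + 1 = 2 * u (B i + 1) * Q := by rw [A_succ i, hQ]; ring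
  -- `S i = (2 B e) Q`
  have hS : S i = 2 * B i * e * Q := by
    have h1 := A_eq i
    rw [hA', he] at h1
    have h2 : (B i + 1) * (2 * B i * e * Q) = (B i + 1) * S i := by rw [← h1]; ring
    exact (Nat.eq_of_mul_eq_mul_left hApos h2).symm
  have hepos : 0 < 2 * B i * e := by
    rcases Nat.eq_zero_or_pos (2 * B i * e) with h | h
    · have h1 : u (B i + 1) = 0 := by
        rw [he]
        have h2 : B i * e = 0 := by
          rw [mul_assoc] at h
          omega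
        rw [mul_assoc, h2, mul_zero]
      omega
    · exact h
  have hPA : (B i + 1) * (2 * B i * e) = 2 * u (B i + 1) := by rw [he]; ring
  have h2A : 2 * u (B i + 1) ∣ u (2 * (B i + 1)) := by
    rw [u_two_mul]
    exact Nat.mul_dvd_mul_left 2 (dvd_mul_left _ _)
  -- first part
  have h1 : (2 * B i * e) * (2 * u (B i + 1)) ∣ u (2 * (B (i + 1) + 1)) := by
    have h3 : 2 * B i * e ∣ u (2 * (B i + 1)) := dvd_trans ⟨B i + 1, by rw [← hPA]; ring⟩ h2A
    have h4 := lift3 hepos h3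
    have h5 : u (2 * (B i + 1) * (2 * B i * e)) ∣ u (2 * (B (i + 1) + 1)) := by
      apply u_dvd
      rw [mul_assoc 2 (B i + 1) (2 * B i * e), hPA, hA']
      exact Nat.mul_dvd_mul_left 2 (dvd_mul_right _ _)
    exact dvd_trans (dvd_trans (Nat.mul_dvd_mul_left _ h2A) h4) h5
  -- second part
  have h2 : Q * Q ∣ u (2 * (B (i + 1) + 1)) := by
    have h3 : Q ∣ u (2 * B i) := by
      refine dvd_trans ?_ (t_dvd_u_two (B i))
      rw [hQ]; exact dvd_mul_left _ _
    have h4 := lift3 hQpos h3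
    have h5 : u (2 * B i * Q) ∣ u (2 * (B (i + 1) + 1)) := by
      apply u_dvd
      rw [hA', mul_assoc 2 (B i) Q]
      apply Nat.mul_dvd_mul_left
      apply Nat.mul_dvd_mul_right
      exact dvd_trans hB (dvd_mul_left _ _)
    exact dvd_trans (dvd_trans (Nat.mul_dvd_mul_left _ h3) h4) h5
  have hcopPQ : Nat.Coprime ((2 * B i * e) * (2 * u (B i + 1))) (Q * Q) := by
    have h3 : Nat.Coprime (2 * B i * e) Q :=
      Nat.Coprime.coprime_dvd_left ⟨B i + 1, by rw [← hPA]; ring⟩ hQ2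
    have h4 : Nat.Coprime ((2 * B i * e) * (2 * u (B i + 1))) Q := Nat.Coprime.mul_left h3 hQ2
    exact Nat.Coprime.mul_right h4 h4
  have h3 := hcopPQ.mul_dvd_of_dvd_of_dvd h1 h2
  refine dvd_trans (dvd_of_eq ?_) h3
  rw [hA', hS]; ring

lemma S_dvd_A (i : ℕ) : S i ∣ B (i + 1) + 1 := by rw [A_eq i]; exact dvd_mul_left _ _

lemma S_dvd (i : ℕ) : S i ∣ S (i + 1) := by
  have h1 := AS_dvd i
  rw [u_two_mul] at h1
  have h2 : Nat.Coprime (B (i + 1) + 1) (t (B (i + 1) + 1)) := by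
    apply Nat.Coprime.coprime_dvd_left (AB_dvd (i + 1)).1
    exact (coprime_tu _).symm
  have h3 : Nat.Coprime ((B (i + 1) + 1) * S i) (t (B (i + 1) + 1)) :=
    Nat.Coprime.mul_left h2 (Nat.Coprime.coprime_dvd_left (S_dvd_A i) h2)
  rw [show 2 * (t (B (i + 1) + 1) * u (B (i + 1) + 1)) =
    t (B (i + 1) + 1) * (2 * u (B (i + 1) + 1)) by ring] at h1
  have h4 : (B (i + 1) + 1) * S i ∣ 2 * u (B (i + 1) + 1) := h3.dvd_of_dvd_mul_left h1
  obtain ⟨s, hs, -, -⟩ := t_half (B_odd (i + 1))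
  have h5 : (B (i + 1) + 1) * S i ∣ B (i + 1 + 1) + 1 := by
    rw [A_succ (i + 1), hs]
    refine dvd_trans h4 ⟨s, by ring⟩
  rw [A_eq (i + 1)] at h5
  exact Nat.dvd_of_mul_dvd_mul_left (Nat.succ_pos _) h5

lemma prime_S (i p : ℕ) (hp : p.Prime) (h : p ∣ B i + 1) : p ∣ S i := by
  induction i with
  | zero =>
    have h1 : B 0 + 1 = 2 := rfl
    rw [h1] at h
    rw [(Nat.prime_dvd_prime_iff_eq hp Nat.prime_two).1 h]
    decide
  | succ i ih =>
    refine dvd_trans ?_ (S_dvd i)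
    rw [A_eq i] at h
    rcases (hp.dvd_mul).1 h with h1 | h1
    · exact ih h1
    · exact h1

/-- the divisor of `6 u_X u_{X+1}` for `X = v (i+1)` -/
def E (i : ℕ) : ℕ := 3 * (v (i + 1) * R i) * ((B (i + 1) + 1) * S i)

lemma E_dvd (i : ℕ) : E i ∣ 6 * (u (v (i + 1)) * u (v (i + 1) + 1)) := by
  have h1 := vR_dvd i
  have h2 := AS_dvd i
  rw [show 2 * (B (i + 1) + 1) = v (i + 1) + 1 by rw [v]; ring] at h2
  have h3 := Nat.mul_dvd_mul_left 3 (Nat.mul_dvd_mul h1 h2)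
  rw [E, mul_assoc]
  refine dvd_trans h3 ⟨2, by ring⟩

lemma E_powerful (i p : ℕ) (hp : p.Prime) (h : p ∣ E i) : p ^ 2 ∣ E i := by
  have h3v := three_dvd_v (i + 1)
  have hp3case : (3 : ℕ) ^ 2 ∣ E i := by
    rw [E]
    refine Dvd.dvd.mul_right ?_ _
    rw [sq]
    exact Nat.mul_dvd_mul_left 3 (Dvd.dvd.mul_right h3v _)
  by_cases hp3 : p = 3
  · rw [hp3]; exact hp3case
  · rw [E] at h ⊢
    rcases (hp.dvd_mul).1 h with h1 | h1
    · have h2 : p ∣ v (i + 1) * R i := by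
        rcases (hp.dvd_mul).1 h1 with h4 | h4
        · exact absurd ((Nat.prime_dvd_prime_iff_eq hp Nat.prime_three).1 h4) hp3
        · exact h4
      have h5 : p ∣ R i := by
        rw [v_eq i] at h2
        rcases (hp.dvd_mul).1 h2 with h6 | h6
        · rcases (hp.dvd_mul).1 h6 with h7 | h7
          · exact prime_R i p hp hp3 h7
          · exact h7
        · exact h6
      have h6 : p ∣ v (i + 1) := by rw [v_eq i]; exact Dvd.dvd.mul_left h5 _
      refine Dvd.dvd.mul_right (Dvd.dvd.mul_left ?_ _) _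
      rw [sq]
      exact mul_dvd_mul h6 h5
    · have h5 : p ∣ S i := by
        rw [A_eq i] at h1
        rcases (hp.dvd_mul).1 h1 with h6 | h6
        · rcases (hp.dvd_mul).1 h6 with h7 | h7
          · exact prime_S i p hp h7
          · exact h7
        · exact h6
      refine Dvd.dvd.mul_left ?_ _
      rw [sq]
      exact mul_dvd_mul (dvd_trans h5 (S_dvd_A i)) h5

/-- the size of `E i` -/
lemma E_size (i : ℕ) : 2 * (v i * (v i + 1)) * E i = 3 * (v (i + 1) * (v (i + 1) + 1)) ^ 2 := by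
  have h1 := v_eq i
  have h2 := A_eq i
  have h3 : v (i + 1) + 1 = 2 * (B (i + 1) + 1) := by rw [v]; ring
  have h4 : v i + 1 = 2 * (B i + 1) := by rw [v]; ring
  rw [E]
  calc 2 * (v i * (v i + 1)) * (3 * (v (i + 1) * R i) * ((B (i + 1) + 1) * S i))
      = 3 * (v (i + 1) * (v i * R i)) * ((2 * (B (i + 1) + 1)) * ((v i + 1) * S i)) := by ring
    _ = 3 * (v (i + 1) * v (i + 1)) * ((v (i + 1) + 1) * (2 * ((B i + 1) * S i))) := by
        rw [← h1, ← h3, h4]; ring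
    _ = 3 * (v (i + 1) * v (i + 1)) * ((v (i + 1) + 1) * (v (i + 1) + 1)) := by
        rw [← h2, ← h3]
    _ = 3 * (v (i + 1) * (v (i + 1) + 1)) ^ 2 := by ring

end Pool.Agent.PWC
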