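import Pool.Agent.PWC.DThree

set_option autoImplicit false

/-! The chain `v₀ = 3`, `v_{i+1} = u (v_i)`, where `v_i = 2 B_i + 1`. -/

namespace Pool.Agent.PWC

/-- `B 0 = 1`, `B (i+1) = t (B i + 1) * u (B i)` -/
def B : ℕ → ℕ
  | 0 => 1
  | (i + 1) => t (B i + 1) * u (B i)

lemma B_zero : B 0 = 1 := rfl
lemma B_succ (i : ℕ) : B (i + 1) = t (B i + 1) * u (B i) := rfl

/-- `v i = 2 B i + 1` -/
def v (i : ℕ) : ℕ := 2 * B i + 1

lemma v_succ (i : ℕ) : u (v i) = v (i + 1) := by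
  rw [v, v, B_succ, u_odd_minus]

/-- `B (i+1) + 1 = u (B i + 1) * t (B i)` -/
lemma A_succ (i : ℕ) : B (i + 1) + 1 = u (B i + 1) * t (B i) := by
  have h1 := u_odd_minus (B i)
  have h2 := u_odd_plus (B i)
  rw [B_succ]
  omega

/-- `B` is odd -/
lemma B_odd (i : ℕ) : B i % 2 = 1 := by
  induction i with
  | zero => rfl
  | succ i ih =>
    rw [B_succ]
    obtain ⟨k, hk⟩ : ∃ k, B i = 2 * k + 1 := ⟨B i / 2, by omega⟩
    have h1 := (parity k).2.2.2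
    have h2 := (parity (k + 1)).1
    rw [hk, show 2 * k + 1 + 1 = 2 * (k + 1) by ring]
    rw [Nat.mul_mod, h1]
    have h3 : t (2 * (k + 1)) % 2 = 1 := by omega
    rw [h3]

lemma gcd_u_t {B : ℕ} (p : ℕ) (hp : p.Prime) (hp2 : p ≠ 2) :
    ¬ (p ∣ u (B + 1) ∧ p ∣ t B) := by
  rintro ⟨h1, h2⟩
  rw [u_succ] at h1
  have h3 : p ∣ 2 * u B := (Nat.dvd_add_right h2).1 h1
  rcases (hp.dvd_mul).1 h3 with h4 | h4
  · exact hp2 ((Nat.prime_dvd_prime_iff_eq hp Nat.prime_two).1 h4)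
  · exact Nat.Prime.one_lt hp |>.ne' (Nat.eq_one_of_dvd_coprimes (coprime_tu B) h2 h4)

/-- `t B = 2 * s` with `s` odd, `2 * u (B+1)` and `s` coprime -/
lemma t_half {B : ℕ} (hB : B % 2 = 1) : ∃ s : ℕ, t B = 2 * s ∧ s % 2 = 1 ∧
    Nat.Coprime (2 * u (B + 1)) s := by
  obtain ⟨k, hk⟩ : ∃ k, B = 2 * k + 1 := ⟨B / 2, by omega⟩
  have h1 := (parity k).2.2.1
  rw [← hk] at h1
  refine ⟨t B / 2, by omega, by omega, ?_⟩
  have hs : t B = 2 * (t B / 2) := by omega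
  have hodd : (t B / 2) % 2 = 1 := by omega
  by_contra hcon
  obtain ⟨p, hp, hp1, hp2⟩ := Nat.Prime.not_coprime_iff_dvd.1 hcon
  have hpne : p ≠ 2 := by
    rintro rfl
    omega
  have h3 : p ∣ t B := by rw [hs]; exact Dvd.dvd.mul_left hp2 2
  rcases (hp.dvd_mul).1 hp1 with h4 | h4
  · exact hpne ((Nat.prime_dvd_prime_iff_eq hp Nat.prime_two).1 h4)
  · exact gcd_u_t p hp hpne ⟨h4, h3⟩

/-- `t (B+1)` and `u B` are coprime for odd `B` -/
lemma coprime_t_u {B : ℕ} (hB : B % 2 = 1) : Nat.Coprime (t (B + 1)) (u B) := by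
  obtain ⟨k, hk⟩ : ∃ k, B = 2 * k + 1 := ⟨B / 2, by omega⟩
  have h1 := (parity k).2.2.2
  rw [← hk] at h1
  by_contra hcon
  obtain ⟨p, hp, hp1, hp2⟩ := Nat.Prime.not_coprime_iff_dvd.1 hcon
  have hpne : p ≠ 2 := by
    rintro rfl
    omega
  rw [t_succ] at hp1
  have h3 : p ∣ 2 * t B := (Nat.dvd_add_left (Dvd.dvd.mul_left hp2 3)).1 hp1
  rcases (hp.dvd_mul).1 h3 with h4 | h4
  · exact hpne ((Nat.prime_dvd_prime_iff_eq hp Nat.prime_two).1 h4)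
  · exact Nat.Prime.one_lt hp |>.ne' (Nat.eq_one_of_dvd_coprimes (coprime_tu B) h4 hp2)

/-- if `2 (B+1) ∣ M` and `B ∣ M`, `2 ∣ M`, then `u (B+1) * t B ∣ u M` -/
lemma A_dvd_u {B M : ℕ} (hB : B % 2 = 1) (h1 : 2 * (B + 1) ∣ M) (h2 : B ∣ M) :
    u (B + 1) * t B ∣ u M := by
  obtain ⟨s, hs, hs1, hs2⟩ := t_half hB
  have h3 : 2 * u (B + 1) ∣ u M := by
    refine dvd_trans ?_ (u_dvd h1)
    rw [u_two_mul]
    exact Nat.mul_dvd_mul_left 2 (dvd_mul_left _ _)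
  have h4 : 2 * B ∣ M := by
    have h5 : Nat.Coprime 2 B := by
      rw [Nat.coprime_two_left, Nat.odd_iff]; exact hB
    exact h5.mul_dvd_of_dvd_of_dvd (dvd_trans (dvd_mul_right 2 _) h1) h2
  have h5 : s ∣ u M := by
    refine dvd_trans ?_ (u_dvd h4)
    refine dvd_trans ?_ (t_dvd_u_two B)
    rw [hs]; exact dvd_mul_left _ _
  have h6 := hs2.mul_dvd_of_dvd_of_dvd h3 h5
  refine dvd_trans (dvd_of_eq ?_) h6
  rw [hs]; ring

/-- if `2 (B+1) ∣ M` and `B ∣ M` then `t (B+1) * u B ∣ u M` -/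
lemma B_dvd_u {B M : ℕ} (hB : B % 2 = 1) (h1 : 2 * (B + 1) ∣ M) (h2 : B ∣ M) :
    t (B + 1) * u B ∣ u M := by
  refine (coprime_t_u hB).mul_dvd_of_dvd_of_dvd ?_ (u_dvd h2)
  exact dvd_trans (t_dvd_u_two (B + 1)) (u_dvd h1)

/-- the invariants of the chain -/
lemma chain3 (i : ℕ) : v i ∣ v (i + 1) ∧ 2 * (B i + 1) ∣ B (i + 1) + 1 ∧
    B i ∣ B (i + 1) + 1 := by
  induction i with
  | zero => refine ⟨?_, ?_, ?_⟩ <;> decide
  | succ i ih =>
    obtain ⟨h1, h2, h3⟩ := ih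
    have hodd := B_odd i
    have hodd' := B_odd (i + 1)
    refine ⟨?_, ?_, ?_⟩
    · rw [← v_succ i, ← v_succ (i + 1)]
      exact u_dvd h1
    · -- `2 (B' + 1) ∣ u (B' + 1) * t B'`
      rw [A_succ (i + 1)]
      obtain ⟨s, hs, -, -⟩ := t_half hodd'
      rw [hs, show u (B (i + 1) + 1) * (2 * s) = 2 * (u (B (i + 1) + 1) * s) by ring]
      apply Nat.mul_dvd_mul_left
      refine Dvd.dvd.mul_right ?_ _
      rw [A_succ i] at h2 h3 ⊢
      exact A_dvd_u hodd h2 h3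
    · rw [A_succ (i + 1)]
      refine Dvd.dvd.mul_right ?_ _
      rw [B_succ i]
      exact B_dvd_u hodd h2 h3

/-- the gain at the index `v (i+1)` -/
lemma gain_v (i : ℕ) : ∃ r : ℕ, v (i + 1) = v i * r ∧ r ^ 2 ∣ u (v (i + 1)) := by
  obtain ⟨r, hr⟩ := (chain3 i).1
  refine ⟨r, hr, ?_⟩
  have hrpos : 0 < r := by
    rcases Nat.eq_zero_or_pos r with h | h
    · rw [h, mul_zero, v] at hr
      omega
    · exact h
  have h1 : r ∣ u (v i) := by rw [v_succ, hr]; exact dvd_mul_left _ _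
  have h2 := lift3 hrpos h1
  rw [← hr] at h2
  refine dvd_trans ?_ h2
  rw [sq]
  exact Nat.mul_dvd_mul_left r h1

/-- the gain at the index `v (i+1) + 1` -/
lemma gain_v_one (i : ℕ) : ∃ d : ℕ, B (i + 1) + 1 = 2 * (B i + 1) * B i * d ∧
    d ^ 2 ∣ u (v (i + 1) + 1) := by
  obtain ⟨-, h2, h3⟩ := chain3 i
  have hodd := B_odd i
  have hcop : Nat.Coprime (2 * (B i + 1)) (B i) := by
    apply Nat.Coprime.mul_left
    · rw [Nat.coprime_two_left, Nat.odd_iff]; exact hodd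
    · rw [Nat.coprime_comm]; exact (Nat.coprime_self_add_right).2 (Nat.coprime_one_right _)
  obtain ⟨d, hd⟩ := hcop.mul_dvd_of_dvd_of_dvd h2 h3
  refine ⟨d, hd, ?_⟩
  have hdpos : 0 < d := by
    rcases Nat.eq_zero_or_pos d with h | h
    · rw [h, mul_zero] at hd
      omega
    · exact h
  have h4 : B (i + 1) + 1 ∣ u (2 * (B i + 1) * B i) := by
    rw [A_succ i]
    exact A_dvd_u hodd (dvd_mul_right _ _) (dvd_mul_left _ _)
  have h5 : d ∣ u (2 * (B i + 1) * B i) := dvd_trans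
    (show d ∣ B (i + 1) + 1 by rw [hd]; exact dvd_mul_left _ _) h4
  have h6 := lift3 hdpos h5
  rw [← hd] at h6
  have h7 : d * d ∣ d * u (2 * (B i + 1) * B i) := Nat.mul_dvd_mul_left d h5
  rw [sq]
  refine dvd_trans (dvd_trans h7 h6) (u_dvd ⟨2, ?_⟩)
  rw [v]; ring

end Pool.Agent.PWC
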