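import Pool.Agent.Helper98.PowPart.Main

set_option autoImplicit false

/-! The sequences `(2+√3)^k = t k + u k √3`: identities and lifting. -/

namespace Pool.Agent.PWC

open Pool.Agent.Helper98.PowPart (powerfulPart powerfulPart_pos dvd_powerfulPart)

/-- `(2+√3)^k = t k + u k √3`. -/
def tu : ℕ → ℕ × ℕ
  | 0 => (1, 0)
  | (k + 1) => (2 * (tu k).1 + 3 * (tu k).2, (tu k).1 + 2 * (tu k).2)

def t (k : ℕ) : ℕ := (tu k).1
def u (k : ℕ) : ℕ := (tu k).2

lemma t_zero : t 0 = 1 := rfl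
lemma u_zero : u 0 = 0 := rfl
lemma t_succ (k : ℕ) : t (k + 1) = 2 * t k + 3 * u k := rfl
lemma u_succ (k : ℕ) : u (k + 1) = t k + 2 * u k := rfl

lemma tu_add (m n : ℕ) :
    t (m + n) = t m * t n + 3 * (u m * u n) ∧ u (m + n) = t m * u n + u m * t n := by
  induction n with
  | zero => simp [t_zero, u_zero]
  | succ n ih =>
    obtain ⟨h1, h2⟩ := ih
    constructor
    · rw [← Nat.add_assoc, t_succ (m + n), h1, h2, t_succ n, u_succ n]; ring
    · rw [← Nat.add_assoc, u_succ (m + n), h1, h2, t_succ n, u_succ n]; ring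

lemma norm3 (k : ℕ) : t k ^ 2 = 3 * u k ^ 2 + 1 := by
  induction k with
  | zero => simp [t_zero, u_zero]
  | succ k ih => rw [t_succ, u_succ]; nlinarith [ih]

lemma t_pos (k : ℕ) : 0 < t k := by
  induction k with
  | zero => simp [t_zero]
  | succ k ih => rw [t_succ]; omega

lemma u_pos {k : ℕ} (hk : 0 < k) : 0 < u k := by
  obtain ⟨j, rfl⟩ := Nat.exists_eq_succ_of_ne_zero hk.ne'
  rw [Nat.succ_eq_add_one, u_succ]
  have := t_pos j
  omega

lemma u_le_t (k : ℕ) : u k ≤ t k := by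
  have h := norm3 k
  by_contra hcon
  push Not at hcon
  nlinarith

lemma u_two_mul (m : ℕ) : u (2 * m) = 2 * (t m * u m) := by
  rw [two_mul, (tu_add m m).2]; ring

lemma u_dvd_mul (m n : ℕ) : u m ∣ u (m * n) := by
  induction n with
  | zero => simp [u_zero]
  | succ n ih =>
    rw [Nat.mul_succ, (tu_add (m * n) m).2]
    exact dvd_add (Dvd.intro_left _ rfl) (Dvd.dvd.mul_right ih _)

lemma u_dvd {m n : ℕ} (h : m ∣ n) : u m ∣ u n := by
  obtain ⟨c, rfl⟩ := h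
  exact u_dvd_mul m c

lemma t_dvd_u_two (m : ℕ) : t m ∣ u (2 * m) := by
  rw [u_two_mul]
  exact Dvd.dvd.mul_left (dvd_mul_right _ _) _

lemma pow_form3 (k n : ℕ) : ∃ r s : ℕ, t (k * (n + 1)) = t k ^ (n + 1) + u k ^ 2 * r ∧
    u (k * (n + 1)) = (n + 1) * t k ^ n * u k + u k ^ 3 * s := by
  induction n with
  | zero => exact ⟨0, 0, by simp, by simp⟩
  | succ n ih =>
    obtain ⟨r, s, h1, h2⟩ := ih
    refine ⟨r * t k + 3 * (n + 1) * t k ^ n + 3 * u k ^ 2 * s, r + s * t k, ?_, ?_⟩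
    · rw [Nat.mul_succ, (tu_add (k * (n + 1)) k).1, h1, h2]; ring
    · rw [Nat.mul_succ, (tu_add (k * (n + 1)) k).2, h1, h2]; ring

/-- lifting: if `p ∣ u k` then `p * u k ∣ u (k * p)` -/
lemma lift3 {k p : ℕ} (hp : 0 < p) (h : p ∣ u k) : p * u k ∣ u (k * p) := by
  obtain ⟨n, rfl⟩ := Nat.exists_eq_succ_of_ne_zero hp.ne'
  obtain ⟨r, s, -, h2⟩ := pow_form3 k n
  rw [Nat.succ_eq_add_one] at *
  rw [h2]
  refine dvd_add ?_ ?_
  · rw [mul_assoc, mul_comm (t k ^ n), ← mul_assoc]; exact Dvd.intro _ rfl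
  · refine Dvd.dvd.mul_right ?_ s
    rw [show u k ^ 3 = (u k * u k) * u k by ring]
    exact mul_dvd_mul (Dvd.dvd.mul_right h _) (dvd_refl _)

/-! ### identities -/

/-- `u_{2B+1} + 1 = 2 u_{B+1} t_B` -/
lemma u_odd_plus (B : ℕ) : u (2 * B + 1) + 1 = 2 * (u (B + 1) * t B) := by
  have h := norm3 B
  rw [show 2 * B + 1 = B + (B + 1) by ring, (tu_add B (B + 1)).2, t_succ, u_succ]
  nlinarith [h]

/-- `u_{2B+1} - 1 = 2 t_{B+1} u_B` -/
lemma u_odd_minus (B : ℕ) : u (2 * B + 1) = 2 * (t (B + 1) * u B) + 1 := by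
  have h := norm3 B
  rw [show 2 * B + 1 = B + (B + 1) by ring, (tu_add B (B + 1)).2, t_succ, u_succ]
  nlinarith [h]

/-- `n = 6 u_m u_{m+1}`: `n + 1` is a square -/
lemma n_one (m : ℕ) : 6 * (u m * u (m + 1)) + 1 = (t m + 3 * u m) ^ 2 := by
  have h := norm3 m
  rw [u_succ]; nlinarith [h]

/-- `n = 6 u_m u_{m+1}`: `n + 3` is three times a square -/
lemma n_three (m : ℕ) : 6 * (u m * u (m + 1)) + 3 = 3 * (t m + u m) ^ 2 := by
  have h := norm3 m
  rw [u_succ]; nlinarith [h]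

/-! ### parity and coprimality -/

lemma parity (k : ℕ) : (t (2 * k) % 4 = 1 ∨ t (2 * k) % 4 = 3) ∧ u (2 * k) % 2 = 0 ∧
    t (2 * k + 1) % 4 = 2 ∧ u (2 * k + 1) % 2 = 1 := by
  induction k with
  | zero => refine ⟨Or.inl ?_, ?_, ?_, ?_⟩ <;> decide
  | succ k ih =>
    obtain ⟨h1, h2, h3, h4⟩ := ih
    have e1 : t (2 * (k + 1)) = 2 * t (2 * k + 1) + 3 * u (2 * k + 1) := by
      rw [show 2 * (k + 1) = 2 * k + 1 + 1 by ring, t_succ]
    have e2 : u (2 * (k + 1)) = t (2 * k + 1) + 2 * u (2 * k + 1) := by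
      rw [show 2 * (k + 1) = 2 * k + 1 + 1 by ring, u_succ]
    have e3 : t (2 * (k + 1) + 1) = 2 * t (2 * (k + 1)) + 3 * u (2 * (k + 1)) := t_succ _
    have e4 : u (2 * (k + 1) + 1) = t (2 * (k + 1)) + 2 * u (2 * (k + 1)) := u_succ _
    refine ⟨?_, ?_, ?_, ?_⟩
    · omega
    · omega
    · omega
    · omega

lemma coprime_tu (k : ℕ) : Nat.Coprime (t k) (u k) := by
  rw [← Nat.isCoprime_iff_coprime]
  have h : ((t k : ℤ)) ^ 2 = 3 * (u k : ℤ) ^ 2 + 1 := by exact_mod_cast norm3 k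
  exact ⟨(t k : ℤ), -3 * (u k : ℤ), by linarith [h, sq (t k : ℤ), sq (u k : ℤ)]⟩

end Pool.Agent.PWC
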