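import Pool.Agent.PWC.PowerMain

set_option autoImplicit false

/-! Blocks of three consecutive integers: the chain `e ↦ a(3 e) / 7`. -/

namespace Pool.Agent.PWC

open Pool.Agent.Helper98.PowPart

/-! ### identities for an odd index -/

lemma a_add_three (N : ℕ) : a (N + 3) = 7 * a N + 10 * b N := by
  have h1 : a 3 = 7 := rfl
  have h2 : b 3 = 5 := rfl
  rw [(ab_add N 3).1, h1, h2]; ring

lemma b_add_three (N : ℕ) : b (N + 3) = 5 * a N + 7 * b N := by
  have h1 : a 3 = 7 := rfl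
  have h2 : b 3 = 5 := rfl
  rw [(ab_add N 3).2, h1, h2]; ring

lemma prod_plus {N : ℕ} (h : Odd N) : a (N + 3) * a N + 7 = 2 * (b (N + 3) * b N) := by
  have h1 := norm_odd h
  rw [a_add_three, b_add_three]
  nlinarith [h1]

lemma a_double_three {N : ℕ} (h : Odd N) : a (2 * N + 3) = 2 * (a (N + 3) * a N) + 7 := by
  have h1 := prod_plus h
  rw [show 2 * N + 3 = N + (N + 3) by ring, (ab_add N (N + 3)).1]
  nlinarith [h1]

/-! ### the chain -/

/-- `3, 3900599, ...` -/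
def T : ℕ → ℕ
  | 0 => 3
  | (i + 1) => a (3 * T i + 3) * a (3 * T i) / 7

lemma T_zero : T 0 = 3 := rfl
lemma T_succ (i : ℕ) : T (i + 1) = a (3 * T i + 3) * a (3 * T i) / 7 := rfl

lemma seven_dvd_a {v : ℕ} (hv : v % 2 = 1) : 7 ∣ a (3 * v) := by
  obtain ⟨t, ht⟩ : ∃ t, v = 2 * t + 1 := ⟨v / 2, by omega⟩
  rw [ht]
  exact a_dvd_mul 3 t

lemma T_data (i : ℕ) : T i % 2 = 1 ∧ 7 * T (i + 1) = a (3 * T i + 3) * a (3 * T i) := by
  induction i with
  | zero =>
    refine ⟨rfl, ?_⟩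
    rw [T_succ]
    exact Nat.mul_div_cancel' (Dvd.dvd.mul_left (seven_dvd_a (v := T 0) rfl) _)
  | succ i ih =>
    obtain ⟨h1, h2⟩ := ih
    have h3 : T (i + 1) % 2 = 1 := by
      have e1 := a_mod_two (3 * T i + 3)
      have e2 := a_mod_two (3 * T i)
      have e3 : (7 * T (i + 1)) % 2 = 1 := by rw [h2, Nat.mul_mod, e1, e2]
      omega
    refine ⟨h3, ?_⟩
    rw [T_succ (i + 1)]
    exact Nat.mul_div_cancel' (Dvd.dvd.mul_left (seven_dvd_a h3) _)

lemma T_odd (i : ℕ) : T i % 2 = 1 := (T_data i).1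
lemma T_eq (i : ℕ) : 7 * T (i + 1) = a (3 * T i + 3) * a (3 * T i) := (T_data i).2

lemma odd_three_T (i : ℕ) : Odd (3 * T i) := by
  have := T_odd i
  rw [Nat.odd_iff]; omega

/-- `7 (T' + 1) = 2 b(3T+3) b(3T)` -/
lemma S_eq (i : ℕ) : 7 * (T (i + 1) + 1) = 2 * (b (3 * T i + 3) * b (3 * T i)) := by
  rw [← prod_plus (odd_three_T i), ← T_eq i]; ring

/-- `e i = 2 T i + 1` -/
def e (i : ℕ) : ℕ := 2 * T i + 1

lemma e_eq (i : ℕ) : 7 * e (i + 1) = a (3 * e i) := by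
  have h := a_double_three (odd_three_T i)
  rw [← T_eq i, show 2 * (3 * T i) + 3 = 3 * e i by rw [e]; ring] at h
  rw [h, e]; ring

lemma e_odd (i : ℕ) : e i % 2 = 1 := by rw [e]; omega

lemma T_one : T 1 = 3900599 := by
  have h := T_eq 0
  rw [T_zero, zero_add] at h
  have h1 : a (3 * 3 + 3) * a (3 * 3) = 27304193 := by decide +kernel
  rw [h1] at h
  omega

lemma e_dvd (i : ℕ) : e i ∣ e (i + 1) := by
  induction i with
  | zero =>
    rw [e, e, zero_add, T_one, T_zero]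
    exact ⟨1114457, by norm_num⟩
  | succ i ih =>
    have h1 := e_eq i
    have h2 := e_eq (i + 1)
    have h3 : a (3 * e i) ∣ a (3 * e (i + 1)) := by
      apply a_dvd_of_odd (Nat.mul_dvd_mul_left 3 ih)
      have := e_odd (i + 1)
      rw [Nat.odd_iff]; omega
    rw [← h1, ← h2] at h3
    exact Nat.dvd_of_mul_dvd_mul_left (by norm_num) h3

/-- a common divisor of `30 b(N+3)` and `b N` for odd `N` divides `5` -/
lemma gcd_dvd_five {N g c : ℕ} (h : Odd N) (hc : c ∣ 6) (h1 : g ∣ c * b (N + 3)) (h2 : g ∣ b N) :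
    g ∣ 5 := by
  have h3 : g ∣ 6 * b (N + 3) := dvd_trans h1 (Nat.mul_dvd_mul_right hc _)
  rw [b_add_three] at h3
  have h4 : g ∣ 30 * a N := by
    have h5 : 6 * (5 * a N + 7 * b N) = 30 * a N + 42 * b N := by ring
    rw [h5] at h3
    exact (Nat.dvd_add_left (Dvd.dvd.mul_left h2 42)).1 h3
  have hcop : Nat.Coprime g (a N) :=
    Nat.Coprime.coprime_dvd_left h2 (coprime_ab N).symm
  have h6 : g ∣ 30 := hcop.dvd_of_dvd_mul_right h4
  have hcop2 : Nat.Coprime g 6 := by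
    apply Nat.Coprime.coprime_dvd_left h2
    have e2 : ¬ 2 ∣ b N := by
      have := b_mod_two N
      rw [Nat.odd_iff] at h
      omega
    have e3 : ¬ 3 ∣ b N := by
      intro h7
      obtain ⟨t, ht⟩ := h
      have : N = 4 * (t / 2) + (N - 4 * (t / 2)) := by omega
      rcases Nat.even_or_odd t with ht' | ht'
      · obtain ⟨s, hs⟩ := ht'
        have h8 := not_dvd_b (p := 3) (s := 4) (t := 1) (c := s) (by norm_num)
          (by decide) (by decide)
        exact h8 (by rw [show 4 * s + 1 = N by omega]; exact h7)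
      · obtain ⟨s, hs⟩ := ht'
        have h8 := not_dvd_b (p := 3) (s := 4) (t := 3) (c := s) (by norm_num)
          (by decide) (by decide)
        exact h8 (by rw [show 4 * s + 3 = N by omega]; exact h7)
    have c2 : Nat.Coprime (b N) 2 := ((Nat.Prime.coprime_iff_not_dvd Nat.prime_two).2 e2).symm
    have c3 : Nat.Coprime (b N) 3 := ((Nat.Prime.coprime_iff_not_dvd Nat.prime_three).2 e3).symm
    exact Nat.Coprime.mul_right c2 c3
  have h7 : g ∣ 6 * 5 := h6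
  exact hcop2.dvd_of_dvd_mul_left h7

/-- `a (N+3)` and `a N` are coprime for odd `N` divisible by `3` -/
lemma coprime_a_a {v : ℕ} : Nat.Coprime (a (3 * v + 3)) (a (3 * v)) := by
  rw [Nat.coprime_iff_gcd_eq_one]
  set g := Nat.gcd (a (3 * v + 3)) (a (3 * v)) with hg
  have h1 : g ∣ a (3 * v + 3) := Nat.gcd_dvd_left _ _
  have h2 : g ∣ a (3 * v) := Nat.gcd_dvd_right _ _
  rw [a_add_three] at h1
  have h3 : g ∣ 10 * b (3 * v) := (Nat.dvd_add_right (Dvd.dvd.mul_left h2 7)).1 h1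
  have hcop : Nat.Coprime g (b (3 * v)) :=
    Nat.Coprime.coprime_dvd_left h2 (coprime_ab _)
  have h4 : g ∣ 10 := hcop.dvd_of_dvd_mul_right h3
  have h5 : 5 ∣ b (3 * v) := b_dvd_mul 3 v
  have h6 : Nat.Coprime g 5 := Nat.Coprime.coprime_dvd_right h5 hcop
  have h7 : g ∣ 2 * 5 := h4
  have h8 : g ∣ 2 := h6.dvd_of_dvd_mul_right h7
  have h9 := a_mod_two (3 * v)
  rcases (Nat.dvd_prime Nat.prime_two).1 h8 with h10 | h10
  · exact h10
  · rw [h10] at h2; omega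

/-- the invariants -/
lemma inv_T (i : ℕ) : 4 ∣ T i + 1 ∧ 6 * (T i + 1) ∣ T (i + 1) + 1 ∧ T i ∣ T (i + 1) + 1 := by
  induction i with
  | zero =>
    rw [zero_add, T_one, T_zero]
    exact ⟨⟨1, rfl⟩, ⟨162525, by norm_num⟩, ⟨1300200, by norm_num⟩⟩
  | succ i ih =>
    obtain ⟨h4, h6, hT⟩ := ih
    have hodd := odd_three_T i
    have hSeq := S_eq i
    have hSeq' := S_eq (i + 1)
    have hTeq := T_eq i
    have e3 : 3 * T i + 3 = 3 * (T i + 1) := by ring
    have e3' : 3 * T (i + 1) + 3 = 3 * (T (i + 1) + 1) := by ring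
    -- `6 b(3S) ∣ b(3S')`
    have h12 : 12 ∣ b (3 * T i + 3) := by
      rw [e3]
      exact dvd_trans (by decide : 12 ∣ b 4) (b_dvd (Dvd.dvd.mul_left h4 3))
    have hb6 : 6 * b (3 * T i + 3) ∣ b (3 * T (i + 1) + 3) := by
      have h1 := lift (k := 3 * T i + 3) (p := 6) (by norm_num)
        (dvd_trans (by norm_num) h12)
      refine dvd_trans h1 (b_dvd ?_)
      rw [e3, e3', mul_assoc, mul_comm (T i + 1) 6]
      exact Nat.mul_dvd_mul_left 3 h6
    have hbT : b (3 * T i) ∣ b (3 * T (i + 1) + 3) := by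
      apply b_dvd
      rw [e3']
      exact Nat.mul_dvd_mul_left 3 hT
    have hg : Nat.gcd (6 * b (3 * T i + 3)) (b (3 * T i)) ∣ 5 :=
      gcd_dvd_five hodd (dvd_refl 6) (Nat.gcd_dvd_left _ _) (Nat.gcd_dvd_right _ _)
    have hlcm : Nat.lcm (6 * b (3 * T i + 3)) (b (3 * T i)) ∣ b (3 * T (i + 1) + 3) :=
      Nat.lcm_dvd hb6 hbT
    have hprod : 6 * b (3 * T i + 3) * b (3 * T i) ∣
        b (3 * T (i + 1)) * b (3 * T (i + 1) + 3) := by
      rw [← Nat.gcd_mul_lcm]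
      exact mul_dvd_mul (dvd_trans hg (b_dvd_mul 3 _)) hlcm
    have hT2 : 2 * T i ∣ T (i + 1) + 1 := by
      have hc : Nat.Coprime 2 (T i) := by
        rw [Nat.coprime_two_left, Nat.odd_iff]; exact T_odd i
      exact hc.mul_dvd_of_dvd_of_dvd
        (dvd_trans (⟨3 * (T i + 1), by ring⟩ : 2 ∣ 6 * (T i + 1)) h6) hT
    refine ⟨?_, ?_, ?_⟩
    · exact dvd_trans h4 (dvd_trans (dvd_mul_left _ _) h6)
    · have h1 : 7 * (6 * (T (i + 1) + 1)) ∣ 7 * (T (i + 1 + 1) + 1) := by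
        rw [hSeq']
        have h2 : 7 * (6 * (T (i + 1) + 1)) = 2 * (6 * b (3 * T i + 3) * b (3 * T i)) := by
          calc 7 * (6 * (T (i + 1) + 1)) = 6 * (7 * (T (i + 1) + 1)) := by ring
            _ = 6 * (2 * (b (3 * T i + 3) * b (3 * T i))) := by rw [hSeq]
            _ = 2 * (6 * b (3 * T i + 3) * b (3 * T i)) := by ring
        rw [h2, mul_comm (b (3 * T (i + 1) + 3))]
        exact Nat.mul_dvd_mul_left 2 hprod
      exact Nat.dvd_of_mul_dvd_mul_left (by norm_num) h1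
    · have h1 : a (3 * T i + 3) ∣ b (3 * T (i + 1) + 3) := by
        refine dvd_trans ?_ (b_dvd (?_ : 2 * (3 * T i + 3) ∣ _))
        · rw [b_two_mul]; exact Dvd.dvd.mul_left (dvd_mul_right _ _) 2
        · rw [e3, e3', ← mul_assoc, mul_comm 2 3, mul_assoc]
          apply Nat.mul_dvd_mul_left 3
          exact dvd_trans (⟨3, by ring⟩ : 2 * (T i + 1) ∣ 6 * (T i + 1)) h6
      have h2 : a (3 * T i) ∣ b (3 * T (i + 1) + 3) := by
        refine dvd_trans ?_ (b_dvd (?_ : 2 * (3 * T i) ∣ _))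
        · rw [b_two_mul]; exact Dvd.dvd.mul_left (dvd_mul_right _ _) 2
        · rw [e3', ← mul_assoc, mul_comm 2 3, mul_assoc]
          exact Nat.mul_dvd_mul_left 3 hT2
      have h3 : a (3 * T i + 3) * a (3 * T i) ∣ b (3 * T (i + 1) + 3) :=
        coprime_a_a.mul_dvd_of_dvd_of_dvd h1 h2
      rw [← hTeq] at h3
      have h4' : 7 * T (i + 1) ∣ 7 * (T (i + 1 + 1) + 1) := by
        rw [hSeq']
        exact Dvd.dvd.mul_left (Dvd.dvd.mul_right h3 _) 2
      exact Nat.dvd_of_mul_dvd_mul_left (by norm_num) h4'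

lemma T_pos (i : ℕ) : 0 < T i := by have := T_odd i; omega

/-- gain at the index `2 e (i+1)` -/
lemma gain_e (i : ℕ) : ∃ d : ℕ, 0 < d ∧ d ^ 2 ∣ b (2 * e (i + 1)) ∧
    a (e i) ≤ 7 * (e i * d) := by
  have hpos : 0 < e i := by rw [e]; omega
  have h1 : a (e i) ∣ 7 * e (i + 1) := by
    rw [e_eq, mul_comm 3 (e i)]
    exact a_dvd_mul (e i) 1
  have h2 : a (e i) ∣ b (2 * e i) := by
    rw [b_two_mul]; exact Dvd.dvd.mul_left (dvd_mul_right _ _) 2
  exact gain_const hpos (a_pos _) (by norm_num) (e_dvd i) h1 h2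

/-- gain at the index `2 e (i+2) + 2` -/
lemma gain_S (i : ℕ) : ∃ d : ℕ, 0 < d ∧ d ^ 2 ∣ b (2 * e (i + 2) + 2) ∧
    T (i + 2) + 1 ≤ 15 * ((T (i + 1) + 1) * T (i + 1) * d) := by
  obtain ⟨h4, h6, hT⟩ := inv_T (i + 1)
  have h6' := (inv_T i).2.1
  have hSeq := S_eq (i + 1)
  have hodd := odd_three_T (i + 1)
  have hTpos := T_pos (i + 1)
  have e3 : 3 * T (i + 1) + 3 = 3 * (T (i + 1) + 1) := by ring
  set t := T (i + 1) with ht
  rw [show i + 1 + 1 = i + 2 by ring] at h6 hT hSeq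
  -- coprimality
  have c1 : Nat.Coprime (t + 1) t := by
    rw [Nat.coprime_comm]; exact (Nat.coprime_self_add_right).2 (Nat.coprime_one_right _)
  have h3 : 3 ∣ t + 1 := dvd_trans (⟨2 * (T i + 1), by ring⟩ : 3 ∣ 6 * (T i + 1)) h6'
  have c3 : Nat.Coprime 3 t := Nat.Coprime.coprime_dvd_left h3 c1
  have c4 : Nat.Coprime (3 * (t + 1)) t := Nat.Coprime.mul_left c3 c1
  have hm : 3 * (t + 1) * t ∣ T (i + 2) + 1 := by
    apply c4.mul_dvd_of_dvd_of_dvd _ hT
    exact dvd_trans (⟨2, by ring⟩ : 3 * (t + 1) ∣ 6 * (t + 1)) h6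
  have hbpos : 0 < b (3 * t) := b_pos (by omega)
  have hbpos' : 0 < 2 * b (3 * t + 3) := Nat.mul_pos (by norm_num) (b_pos (by omega))
  have hlpos : 0 < Nat.lcm (2 * b (3 * t + 3)) (b (3 * t)) := Nat.lcm_pos hbpos' hbpos
  have hprod : Nat.gcd (2 * b (3 * t + 3)) (b (3 * t)) * Nat.lcm (2 * b (3 * t + 3)) (b (3 * t)) =
      7 * (T (i + 2) + 1) := by
    rw [Nat.gcd_mul_lcm, hSeq]; ring
  have hg : Nat.gcd (2 * b (3 * t + 3)) (b (3 * t)) ≤ 5 := by
    apply Nat.le_of_dvd (by norm_num)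
    exact gcd_dvd_five hodd (by norm_num : 2 ∣ 6) (Nat.gcd_dvd_left _ _) (Nat.gcd_dvd_right _ _)
  have hh1 : Nat.lcm (2 * b (3 * t + 3)) (b (3 * t)) ∣ 7 * (T (i + 2) + 1) := by
    rw [← hprod]; exact dvd_mul_left _ _
  have hh2 : Nat.lcm (2 * b (3 * t + 3)) (b (3 * t)) ∣ b (2 * (3 * (t + 1) * t)) := by
    apply Nat.lcm_dvd
    · refine dvd_trans ?_ (b_dvd (?_ : 2 * (3 * t + 3) ∣ _))
      · rw [b_two_mul]; exact Nat.mul_dvd_mul_left 2 (dvd_mul_left _ _)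
      · rw [e3]; exact Nat.mul_dvd_mul_left 2 (dvd_mul_right _ _)
    · apply b_dvd
      exact ⟨2 * (t + 1), by ring⟩
  obtain ⟨d, hd0, hd1, hd2⟩ := gain_const (m := 3 * (t + 1) * t) (M := T (i + 2) + 1)
    (h := Nat.lcm (2 * b (3 * t + 3)) (b (3 * t))) (c := 7) (by positivity) hlpos (by norm_num)
    hm hh1 hh2
  refine ⟨d, hd0, ?_, ?_⟩
  · refine dvd_trans hd1 (b_dvd ?_)
    rw [e]
    exact ⟨2, by ring⟩
  · have h7 : 7 * (T (i + 2) + 1) ≤ 5 * (7 * (3 * (t + 1) * t * d)) := by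
      rw [← hprod]
      exact Nat.mul_le_mul hg hd2
    have h8 : 5 * (7 * (3 * (t + 1) * t * d)) = 7 * (15 * ((t + 1) * t * d)) := by ring
    rw [h8] at h7
    exact Nat.le_of_mul_le_mul_left h7 (by norm_num)

end Pool.Agent.PWC
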