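import Pool.Agent.PWC.EightChain

set_option autoImplicit false

/-! Blocks of three consecutive integers: the exponent `8/3` of the logarithm. -/

namespace Pool.Agent.PWC

open Pool.Agent.Helper98.PowPart

lemma a_three_mul {v : ℕ} (hv : v % 2 = 1) : a (3 * v) = 4 * a v ^ 3 + 3 * a v := by
  have h := norm_odd (Nat.odd_iff.2 hv)
  have e1 : a (2 * v) = a v ^ 2 + 2 * b v ^ 2 := by
    rw [two_mul, (ab_add v v).1]; ring
  have e2 : b (2 * v) = 2 * (a v * b v) := b_two_mul v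
  rw [show 3 * v = v + 2 * v by ring, (ab_add v (2 * v)).1, e1, e2]
  have h1 : a v * (a v ^ 2 + 2 * b v ^ 2) + 2 * (b v * (2 * (a v * b v))) =
      a v ^ 3 + 3 * a v * (2 * b v ^ 2) := by ring
  rw [h1, ← h]
  ring

/-- `e (i+1) ≤ a (e i) ^ 3` -/
lemma e_le_cube (i : ℕ) : e (i + 1) ≤ a (e i) ^ 3 := by
  have h1 := e_eq i
  rw [a_three_mul (e_odd i)] at h1
  have h2 : a (e i) ≤ a (e i) ^ 3 := by
    have := a_pos (e i)
    calc a (e i) = a (e i) ^ 1 := (pow_one _).symm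
      _ ≤ a (e i) ^ 3 := Nat.pow_le_pow_right this (by norm_num)
  omega

lemma e_ge (i : ℕ) : i + 7 ≤ e i := by
  induction i with
  | zero => rw [e, T_zero]
  | succ i ih =>
    have h1 := (inv_T i).2.1
    have h2 := Nat.le_of_dvd (Nat.succ_pos _) h1
    have h3 : e i = 2 * T i + 1 := rfl
    have h4 : e (i + 1) = 2 * T (i + 1) + 1 := rfl
    omega

/-- lower bound for `log e (i+1)` -/
lemma log_e_ge (i : ℕ) (hi : 100 ≤ e i) : 2.5 * (e i : ℝ) ≤ Real.log (e (i + 1) : ℝ) := by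
  have h1 := (a_ratio (3 * e i - 4)).2.2
  rw [show 3 * e i - 4 + 4 = 3 * e i by omega, ← e_eq] at h1
  push_cast at h1
  have hpos : (0 : ℝ) < (e (i + 1) : ℝ) := by
    have : 0 < e (i + 1) := by have := e_ge (i + 1); omega
    exact_mod_cast this
  have h2 := Real.log_le_log (by positivity) h1
  have h3 : Real.log (2 * (7 * (e (i + 1) : ℝ))) = Real.log 14 + Real.log (e (i + 1) : ℝ) := by
    rw [← Real.log_mul (by norm_num) hpos.ne']
    congr 1; ring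
  rw [h3, Real.log_pow] at h2
  have h4 : Real.log (14 : ℝ) ≤ 2.8 := by
    have h5 : (14 : ℝ) ≤ 2 ^ 4 := by norm_num
    have h6 := Real.log_le_log (by norm_num) h5
    rw [Real.log_pow] at h6
    have := Real.log_two_lt_d9
    push_cast at h6
    linarith
  have h5 := log_lower
  have h6 : (100 : ℝ) ≤ (e i : ℝ) := by exact_mod_cast hi
  push_cast at h2
  have h7 : 3 * (e i : ℝ) * 0.8779 ≤ 3 * (e i : ℝ) * Real.log 2.41 :=
    mul_le_mul_of_nonneg_left h5 (by positivity)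
  linarith

/-- the final real inequality -/
lemma final_real_two {z Z d₁ d₂ L M : ℝ} (hz : 1000 ≤ z) (hZ : 1 ≤ Z) (hd₁ : 0 < d₁)
    (hd₂ : 0 < d₂) (h1 : Z ≤ (7 * (z * d₁)) ^ 3) (h2 : Z ≤ 7.5 * (z ^ 2 * d₂))
    (hL0 : 0 < L) (hL : L ≤ 3.54 * Z) (hM : 2.5 * z ≤ M) :
    2 * (L ^ (8 / 3 : ℝ) / M ^ 7) ≤ (d₁ * d₂) ^ 2 := by
  have hz0 : 0 < z := by linarith
  have hZ0 : 0 < Z := by linarith
  have hM0 : 0 < M := by linarith
  set y : ℝ := Z ^ (1 / 3 : ℝ) with hy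
  have hy0 : 0 < y := Real.rpow_pos_of_pos hZ0 _
  have hy3 : y ^ 3 = Z := by
    rw [hy, ← Real.rpow_natCast, ← Real.rpow_mul hZ0.le]; norm_num
  have h3 : y ≤ 7 * (z * d₁) := by
    have h4 : y ^ 3 ≤ (7 * (z * d₁)) ^ 3 := by rw [hy3]; exact h1
    exact le_of_pow_le_pow_left₀ (by norm_num) (by positivity) h4
  have h4 : L ^ (8 / 3 : ℝ) ≤ (1.53 * y) ^ 8 := by
    have h5 : L ≤ (1.53 * y) ^ 3 := by
      rw [mul_pow, hy3]
      refine le_trans hL ?_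
      apply mul_le_mul_of_nonneg_right _ hZ0.le
      norm_num
    refine le_trans (Real.rpow_le_rpow hL0.le h5 (by norm_num)) ?_
    rw [← Real.rpow_natCast, ← Real.rpow_mul (by positivity), ← Real.rpow_natCast (n := 8)]
    norm_num
  have h5 : (1.53 * y) ^ 8 ≤ 30.1 * (y ^ 2 * Z ^ 2) := by
    rw [← hy3, mul_pow]
    have : (0 : ℝ) < y ^ 8 := by positivity
    calc (1.53 : ℝ) ^ 8 * y ^ 8 ≤ 30.1 * y ^ 8 := by
          apply mul_le_mul_of_nonneg_right _ this.le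
          norm_num
      _ = 30.1 * (y ^ 2 * (y ^ 3) ^ 2) := by ring
  have h6 : y ^ 2 ≤ (7 * (z * d₁)) ^ 2 := pow_le_pow_left₀ hy0.le h3 2
  have h7 : Z ^ 2 ≤ (7.5 * (z ^ 2 * d₂)) ^ 2 := pow_le_pow_left₀ hZ0.le h2 2
  have h8 : y ^ 2 * Z ^ 2 ≤ (7 * (z * d₁)) ^ 2 * (7.5 * (z ^ 2 * d₂)) ^ 2 :=
    mul_le_mul h6 h7 (by positivity) (by positivity)
  have h9 : (7 * (z * d₁)) ^ 2 * (7.5 * (z ^ 2 * d₂)) ^ 2 = 2756.25 * z ^ 6 * (d₁ * d₂) ^ 2 := by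
    ring
  have h10 : (2.5 * z) ^ 7 ≤ M ^ 7 := pow_le_pow_left₀ (by positivity) hM 7
  rw [mul_div_assoc', div_le_iff₀ (by positivity)]
  have hD : 0 < (d₁ * d₂) ^ 2 := by positivity
  calc 2 * L ^ (8 / 3 : ℝ) ≤ 2 * (30.1 * (2756.25 * z ^ 6 * (d₁ * d₂) ^ 2)) := by
        rw [h9] at h8
        linarith
    _ = (165926.25 * z ^ 6) * (d₁ * d₂) ^ 2 := by ring
    _ ≤ (2.5 * z) ^ 7 * (d₁ * d₂) ^ 2 := by
        apply mul_le_mul_of_nonneg_right _ hD.le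
        rw [mul_pow]
        have : (0 : ℝ) < z ^ 6 := by positivity
        calc 165926.25 * z ^ 6 ≤ (610 * z) * z ^ 6 := by
              apply mul_le_mul_of_nonneg_right _ this.le
              linarith
          _ ≤ (2.5 : ℝ) ^ 7 * z ^ 7 := by
              have h11 : (610 : ℝ) ≤ 2.5 ^ 7 := by norm_num
              calc (610 * z) * z ^ 6 = 610 * z ^ 7 := by ring
                _ ≤ (2.5 : ℝ) ^ 7 * z ^ 7 :=
                  mul_le_mul_of_nonneg_right h11 (by positivity)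
    _ ≤ M ^ 7 * (d₁ * d₂) ^ 2 := mul_le_mul_of_nonneg_right h10 hD.le
    _ = (d₁ * d₂) ^ 2 * M ^ 7 := by ring

/-- **Theorem for blocks of length at least three.** -/
theorem eight_thirds (l : ℕ) (hl : 2 ≤ l) (n₀ : ℕ) : ∃ n : ℕ, n₀ ≤ n ∧
    (n : ℝ) ^ 2 * Real.log n ^ (8 / 3 : ℝ) / Real.log (Real.log n) ^ 7 <
      (powerfulPart (∏ j ∈ Finset.range (l + 1), (n + j)) : ℝ) := by
  obtain ⟨i, hi⟩ : ∃ i : ℕ, i = n₀ + 1000 := ⟨_, rfl⟩
  obtain ⟨d₁, hd1, hd1s, hd1l⟩ := gain_e (i + 1)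
  obtain ⟨d₂, hd2, hd2s, hd2l⟩ := gain_S i
  rw [show i + 1 + 1 = i + 2 by ring] at hd1s
  have hcube := e_le_cube (i + 1)
  rw [show i + 1 + 1 = i + 2 by ring] at hcube
  have hlog := log_e_ge (i + 1) (by have := e_ge (i + 1); omega)
  rw [show i + 1 + 1 = i + 2 by ring] at hlog
  have hZge : i + 9 ≤ e (i + 2) := by have := e_ge (i + 2); omega
  have hzge : i + 8 ≤ e (i + 1) := by have := e_ge (i + 1); omega
  have hZT : e (i + 2) = 2 * T (i + 2) + 1 := rfl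
  have hzT : e (i + 1) = 2 * T (i + 1) + 1 := rfl
  set Z : ℕ := e (i + 2) with hZ
  set w : ℕ := e (i + 1) with hw
  obtain ⟨X, hX⟩ : ∃ X : ℕ, X = 2 * Z := ⟨_, rfl⟩
  rw [← hX] at hd1s hd2s
  have hXev : Even X := ⟨Z, by rw [hX]; ring⟩
  set n : ℕ := 2 * (b X * b (X + 2)) with hn
  have e1 : n + 1 = a (X + 1) ^ 2 := (third hXev).symm
  have e2 : n + 2 = 2 * b (X + 1) ^ 2 := by have := norm_odd hXev.add_one; omega
  have hn2 : 2 ^ X ≤ n := by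
    have h1 := two_pow_le_b (X - 1)
    rw [show X - 1 + 1 = X by omega] at h1
    have h2 : 0 < b (X + 2) := b_pos (by omega)
    have h3 : 2 ^ X = 2 * 2 ^ (X - 1) := by
      rw [← pow_succ']; congr 1; omega
    rw [h3, hn]
    nlinarith
  have hn_ge : n₀ ≤ n := by
    have h2 : X < 2 ^ X := Nat.lt_two_pow_self
    omega
  have hnpos : 0 < n := lt_of_lt_of_le (by positivity) hn2
  refine ⟨n, hn_ge, ?_⟩
  have hdvd : (a (X + 1) * b (X + 1) * (d₁ * d₂)) ^ 2 ∣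
      ∏ j ∈ Finset.range (l + 1), (n + j) := by
    refine dvd_trans ?_ (three_dvd_block n l hl)
    have h0 : d₁ ^ 2 * d₂ ^ 2 ∣ n := by
      rw [hn]
      exact Dvd.dvd.mul_left (Nat.mul_dvd_mul hd1s hd2s) 2
    have h1 : a (X + 1) ^ 2 ∣ n + 1 := dvd_of_eq e1.symm
    have h2 : b (X + 1) ^ 2 ∣ n + 2 := by rw [e2]; exact dvd_mul_left _ _
    have h3 := Nat.mul_dvd_mul (Nat.mul_dvd_mul h0 h1) h2
    refine dvd_trans (dvd_of_eq ?_) h3
    ring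
  have hpp : ((a (X + 1) * b (X + 1) * (d₁ * d₂)) ^ 2 : ℕ) ≤
      powerfulPart (∏ j ∈ Finset.range (l + 1), (n + j)) :=
    sq_le_powerfulPart (block_ne_zero hnpos) hdvd
  refine lt_of_lt_of_le ?_ (by exact_mod_cast hpp :
    (((a (X + 1) * b (X + 1) * (d₁ * d₂)) ^ 2 : ℕ) : ℝ) ≤ _)
  push_cast
  have hwr : (1000 : ℝ) ≤ (w : ℝ) := by
    have : 1000 ≤ w := by omega
    exact_mod_cast this
  have hZr : (1000 : ℝ) ≤ (Z : ℝ) := by
    have : 1000 ≤ Z := by omega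
    exact_mod_cast this
  have hnr : (0 : ℝ) < (n : ℝ) := by exact_mod_cast hnpos
  have hXr : (X : ℝ) = 2 * (Z : ℝ) := by rw [hX]; push_cast; ring
  have hL1 : (Z : ℝ) ≤ Real.log (n : ℝ) := by
    have h2 : ((2 : ℝ)) ^ X ≤ (n : ℝ) := by exact_mod_cast hn2
    have h3 := Real.log_le_log (by positivity) h2
    rw [Real.log_pow, hXr] at h3
    have h4 := Real.log_two_gt_d9
    nlinarith
  have hL2 : Real.log (n : ℝ) ≤ 3.54 * (Z : ℝ) := by
    have h1 : (n : ℝ) ≤ (a (X + 1) : ℝ) ^ 2 := by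
      have h2 : n ≤ a (X + 1) ^ 2 := by omega
      exact_mod_cast h2
    have h3 := Real.log_le_log hnr h1
    have h4 := log_a_sq_le (X + 1)
    push_cast at h4
    rw [hXr] at h4
    linarith
  have hL0 : 0 < Real.log (n : ℝ) := by linarith
  have hM : 2.5 * (w : ℝ) ≤ Real.log (Real.log (n : ℝ)) := by
    have h1 : Real.log (Z : ℝ) ≤ Real.log (Real.log (n : ℝ)) :=
      Real.log_le_log (by linarith) hL1
    linarith
  have hc1 : (Z : ℝ) ≤ (7 * ((w : ℝ) * (d₁ : ℝ))) ^ 3 := by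
    have h1 : Z ≤ (7 * (w * d₁)) ^ 3 := le_trans hcube (Nat.pow_le_pow_left hd1l 3)
    exact_mod_cast h1
  have hc2 : (Z : ℝ) ≤ 7.5 * ((w : ℝ) ^ 2 * (d₂ : ℝ)) := by
    have h1 : ((T (i + 2) : ℝ) + 1) ≤
        15 * (((T (i + 1) : ℝ) + 1) * (T (i + 1) : ℝ) * (d₂ : ℝ)) := by exact_mod_cast hd2l
    have h2 : (Z : ℝ) = 2 * (T (i + 2) : ℝ) + 1 := by exact_mod_cast hZT
    have h3 : (w : ℝ) = 2 * (T (i + 1) : ℝ) + 1 := by exact_mod_cast hzT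
    have h4 : (0 : ℝ) ≤ (d₂ : ℝ) := Nat.cast_nonneg _
    have h5 : 15 * (((T (i + 1) : ℝ) + 1) * (T (i + 1) : ℝ) * (d₂ : ℝ)) =
        15 / 4 * (((w : ℝ) ^ 2 - 1) * (d₂ : ℝ)) := by rw [h3]; ring
    rw [h5] at h1
    nlinarith
  have hd1r : (0 : ℝ) < (d₁ : ℝ) := by exact_mod_cast hd1
  have hd2r : (0 : ℝ) < (d₂ : ℝ) := by exact_mod_cast hd2
  have hfin := final_real_two (z := (w : ℝ)) (Z := (Z : ℝ)) hwr (by linarith) hd1r hd2r hc1 hc2
    hL0 hL2 hM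
  have hA : (n : ℝ) ^ 2 < 2 * ((a (X + 1) : ℝ) * (b (X + 1) : ℝ)) ^ 2 := by
    have e1' : (n : ℝ) + 1 = (a (X + 1) : ℝ) ^ 2 := by exact_mod_cast e1
    have e2' : (n : ℝ) + 2 = 2 * (b (X + 1) : ℝ) ^ 2 := by exact_mod_cast e2
    calc (n : ℝ) ^ 2 < ((n : ℝ) + 1) * ((n : ℝ) + 2) := by nlinarith
      _ = 2 * ((a (X + 1) : ℝ) * (b (X + 1) : ℝ)) ^ 2 := by rw [e1', e2']; ring
  set L : ℝ := Real.log (n : ℝ) with hL
  set M : ℝ := Real.log L with hMdef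
  set Q : ℝ := L ^ (8 / 3 : ℝ) / M ^ 7 with hQ
  set S : ℝ := (a (X + 1) : ℝ) * (b (X + 1) : ℝ) with hS
  have hM0 : 0 < M := by linarith
  have hQ0 : 0 < Q := div_pos (Real.rpow_pos_of_pos hL0 _) (by positivity)
  have hS0 : 0 < S ^ 2 := by
    have : (0 : ℝ) < (n : ℝ) ^ 2 := by positivity
    linarith
  calc (n : ℝ) ^ 2 * L ^ (8 / 3 : ℝ) / M ^ 7 = (n : ℝ) ^ 2 * Q := by rw [hQ]; ring
    _ < (2 * S ^ 2) * Q := mul_lt_mul_of_pos_right hA hQ0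
    _ = S ^ 2 * (2 * Q) := by ring
    _ ≤ S ^ 2 * (d₁ * d₂ : ℝ) ^ 2 := mul_le_mul_of_nonneg_left hfin hS0.le
    _ = (S * (d₁ * d₂)) ^ 2 := by ring

end Pool.Agent.PWC
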