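import Pool.Agent.PWC.Chain

set_option autoImplicit false

/-! Powerful parts of blocks of consecutive integers from the chain `w`. -/

namespace Pool.Agent.PWC

open Pool.Agent.Helper98.PowPart

lemma block_ne_zero {n l : ℕ} (hn : 0 < n) : ∏ j ∈ Finset.range (l + 1), (n + j) ≠ 0 := by
  rw [Finset.prod_ne_zero_iff]
  intro j _
  omega

lemma four_dvd_block (n l : ℕ) (hl : 3 ≤ l) :
    n * (n + 1) * (n + 2) * (n + 3) ∣ ∏ j ∈ Finset.range (l + 1), (n + j) := by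
  have h1 : ∏ j ∈ Finset.range 4, (n + j) ∣ ∏ j ∈ Finset.range (l + 1), (n + j) := by
    apply Finset.prod_dvd_prod_of_subset
    intro j hj
    rw [Finset.mem_range] at *
    omega
  rw [Finset.prod_range_succ, Finset.prod_range_succ, Finset.prod_range_succ,
    Finset.prod_range_one, Nat.add_zero] at h1
  exact h1

lemma five_dvd_block (n l : ℕ) (hl : 51 ≤ l) :
    n * ((n + 48) * (n + 48 + 1) * (n + 48 + 2) * (n + 48 + 3)) ∣
      ∏ j ∈ Finset.range (l + 1), (n + j) := by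
  have h1 : ∏ j ∈ ({0, 48, 49, 50, 51} : Finset ℕ), (n + j) ∣
      ∏ j ∈ Finset.range (l + 1), (n + j) := by
    apply Finset.prod_dvd_prod_of_subset
    intro j hj
    simp only [Finset.mem_insert, Finset.mem_singleton] at hj
    rw [Finset.mem_range]
    omega
  refine dvd_trans (dvd_of_eq ?_) h1
  rw [Finset.prod_insert (by decide), Finset.prod_insert (by decide),
    Finset.prod_insert (by decide), Finset.prod_insert (by decide), Finset.prod_singleton]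
  ring

/-! ### sizes -/

lemma w_lower (i : ℕ) : 2 ^ (4 * w i - 5) ≤ w (i + 1) := by
  have h0 := w_ge i
  have h1 := two_pow_le_b (4 * w i - 1)
  rw [show 4 * w i - 1 + 1 = 4 * w i by omega, w_succ i] at h1
  have h2 : 2 ^ (4 * w i - 1) = 16 * 2 ^ (4 * w i - 5) := by
    rw [show 4 * w i - 1 = 4 + (4 * w i - 5) by omega, pow_add]; norm_num
  omega

lemma w_lt (i : ℕ) : w i < w (i + 1) := by
  have h0 := w_ge i
  have h1 := w_lower i
  have h2 : 4 * w i - 5 < 2 ^ (4 * w i - 5) := Nat.lt_two_pow_self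
  omega

lemma le_w (i : ℕ) : i ≤ w i := by
  induction i with
  | zero => omega
  | succ i ih => have := w_lt i; omega

lemma w_big (i : ℕ) (hi : 1 ≤ i) : 1155 ≤ w i := by
  obtain ⟨j, rfl⟩ := Nat.exists_eq_add_of_le' hi
  have h0 : w 1 = 1155 := by
    have h1 : b (4 * w 0) = 12 * w 1 := w_succ 0
    have h2 : b (4 * w 0) = 13860 := by decide +kernel
    omega
  induction j with
  | zero => rw [zero_add, h0]
  | succ j ih => have := w_lt (j + 1); have := ih (by omega); omega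

lemma b_sq_ge (i : ℕ) : 72 * (w (i + 1) + 1) ≤ b (2 * (w i + 1)) ^ 2 := by
  have h1 := w_plus i
  have h0 := w_ge i
  have h2 : 12 * a (2 * (w i - 1)) ≤ b (2 * (w i + 1)) := by
    rw [show 2 * (w i + 1) = 2 * (w i - 1) + 4 by omega, b_add_four]; omega
  calc 72 * (w (i + 1) + 1) = 12 * (6 * (w (i + 1) + 1)) := by ring
    _ = (12 * a (2 * (w i - 1))) * b (2 * (w i + 1)) := by rw [h1]; ring
    _ ≤ b (2 * (w i + 1)) * b (2 * (w i + 1)) := Nat.mul_le_mul_right _ h2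
    _ = b (2 * (w i + 1)) ^ 2 := by ring

lemma b_sq_ge' (i : ℕ) : 6 * (w (i + 1) - 1) ≤ 50 * b (2 * (w i - 1)) ^ 2 := by
  have h1 := w_minus i
  have h0 := w_ge i
  have hev : Even (2 * (w i - 1)) := ⟨w i - 1, by ring⟩
  have hn := norm_even hev
  have hb : 2 ≤ b (2 * (w i - 1)) := by
    have := b_mono (show 2 ≤ 2 * (w i - 1) by omega)
    have h22 : b 2 = 2 := rfl
    omega
  have h2 : 2 * a (2 * (w i - 1)) ≤ 3 * b (2 * (w i - 1)) := by
    by_contra hcon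
    push Not at hcon
    nlinarith
  have h3 : a (2 * (w i + 1)) ≤ 50 * b (2 * (w i - 1)) := by
    rw [show 2 * (w i + 1) = 2 * (w i - 1) + 4 by omega, a_add_four]; omega
  calc 6 * (w (i + 1) - 1) = b (2 * (w i - 1)) * a (2 * (w i + 1)) := h1
    _ ≤ b (2 * (w i - 1)) * (50 * b (2 * (w i - 1))) := Nat.mul_le_mul_left _ h3
    _ = 50 * b (2 * (w i - 1)) ^ 2 := by ring

/-- the double logarithm of `n` against `w i` -/
lemma loglog_ge {i n : ℕ} (hi : 1 ≤ i) (hn : 2 ^ (2 * w (i + 1)) ≤ n) :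
    2.6 * ((w i : ℝ) + 1) ≤ Real.log (Real.log n) := by
  have hbig := w_big i hi
  have hlog2 : (0.69 : ℝ) < Real.log 2 := by have := Real.log_two_gt_d9; linarith
  have hw1 : (0 : ℝ) < (w (i + 1) : ℝ) := by exact_mod_cast (by have := w_ge (i + 1); omega)
  have h1 : (w (i + 1) : ℝ) ≤ Real.log n := by
    have h2 : ((2 : ℝ)) ^ (2 * w (i + 1)) ≤ (n : ℝ) := by exact_mod_cast hn
    have h3 : Real.log ((2 : ℝ) ^ (2 * w (i + 1))) ≤ Real.log n :=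
      Real.log_le_log (by positivity) h2
    rw [Real.log_pow] at h3
    push_cast at h3
    nlinarith
  have h4 : Real.log (w (i + 1) : ℝ) ≤ Real.log (Real.log n) := Real.log_le_log hw1 h1
  have h5 : ((4 * w i - 5 : ℕ) : ℝ) * Real.log 2 ≤ Real.log (w (i + 1) : ℝ) := by
    have h6 : ((2 : ℝ)) ^ (4 * w i - 5) ≤ (w (i + 1) : ℝ) := by exact_mod_cast w_lower i
    have h7 := Real.log_le_log (by positivity) h6
    rwa [Real.log_pow] at h7
  have h8 : ((4 * w i - 5 : ℕ) : ℝ) = 4 * (w i : ℝ) - 5 := by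
    rw [Nat.cast_sub (by omega)]; push_cast; ring
  have h9 : (1155 : ℝ) ≤ (w i : ℝ) := by exact_mod_cast hbig
  rw [h8] at h5
  have h10 := Real.log_two_gt_d9
  nlinarith

/-- the size of the first two gains together -/
lemma gain_real {W X d r bb : ℝ} (hW : 3 ≤ W) (hX : 3 ≤ X) (hd : 0 ≤ d) (hr : 0 ≤ r) (hbb : 0 ≤ bb)
    (h1 : X = W * r) (h2 : bb ≤ 6 * ((W + 1) * d)) (h3 : 72 * (X + 1) ≤ bb ^ 2) :
    2 * X ^ 3 / (W + 1) ^ 4 ≤ (r * d) ^ 2 := by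
  have hW1 : 0 < W + 1 := by linarith
  have h4 : bb ^ 2 ≤ (6 * ((W + 1) * d)) ^ 2 := pow_le_pow_left₀ hbb h2 2
  have h5 : 72 * (X + 1) ≤ 36 * (W + 1) ^ 2 * d ^ 2 := by
    calc 72 * (X + 1) ≤ bb ^ 2 := h3
      _ ≤ (6 * ((W + 1) * d)) ^ 2 := h4
      _ = 36 * (W + 1) ^ 2 * d ^ 2 := by ring
  have h6 : X ≤ (W + 1) * r := by rw [h1]; nlinarith
  have h7 : X ^ 2 ≤ ((W + 1) * r) ^ 2 := pow_le_pow_left₀ (by linarith) h6 2
  rw [div_le_iff₀ (by positivity)]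
  have h8 : 2 * X ≤ (W + 1) ^ 2 * d ^ 2 := by linarith
  calc 2 * X ^ 3 = X ^ 2 * (2 * X) := by ring
    _ ≤ ((W + 1) * r) ^ 2 * ((W + 1) ^ 2 * d ^ 2) :=
        mul_le_mul h7 h8 (by linarith) (by positivity)
    _ = (r * d) ^ 2 * (W + 1) ^ 4 := by ring

lemma gain_real' {W X d bb : ℝ} (hW : 3 ≤ W) (hd : 0 ≤ d) (hbb : 0 ≤ bb)
    (h2 : bb ≤ 6 * ((W - 1) * d)) (h3 : 6 * (X - 1) ≤ 50 * bb ^ 2) :
    (X - 1) / (300 * (W + 1) ^ 2) ≤ d ^ 2 := by
  have h2' : bb ≤ 6 * ((W + 1) * d) := by nlinarith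
  have h4 : bb ^ 2 ≤ (6 * ((W + 1) * d)) ^ 2 := pow_le_pow_left₀ hbb h2' 2
  rw [div_le_iff₀ (by positivity)]
  nlinarith

/-! ### blocks of length at least four -/

theorem cube (l : ℕ) (hl : 3 ≤ l) (n₀ : ℕ) : ∃ n : ℕ, n₀ ≤ n ∧
    (n : ℝ) ^ 2 * Real.log n ^ 3 / Real.log (Real.log n) ^ 4 <
      (powerfulPart (∏ j ∈ Finset.range (l + 1), (n + j)) : ℝ) := by
  obtain ⟨i, hi1, hi0⟩ : ∃ i : ℕ, 1 ≤ i ∧ n₀ ≤ i := ⟨n₀ + 1, by omega, by omega⟩
  obtain ⟨r, hr1, hr2⟩ := gain_zero i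
  obtain ⟨d, hd0, hd1, hd2⟩ := gain_plus i
  have hbig := w_big i hi1
  have hw3 := w_ge i
  have hwlt := w_lt i
  set m : ℕ := 2 * w (i + 1) with hm
  have hmev : Even m := ⟨w (i + 1), by rw [hm]; ring⟩
  set n : ℕ := 2 * (b m * b (m + 2)) with hn
  have e1 : n + 1 = a (m + 1) ^ 2 := (third hmev).symm
  have e2 : n + 2 = 2 * b (m + 1) ^ 2 := by have := norm_odd hmev.add_one; omega
  -- lower bound for `n`
  have hn2 : 2 ^ (2 * w (i + 1)) ≤ n := by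
    have h1 := two_pow_le_b (m - 1)
    rw [show m - 1 + 1 = m by omega] at h1
    have h2 : 0 < b (m + 2) := b_pos (by omega)
    have h3 : 2 ^ (2 * w (i + 1)) = 2 * 2 ^ (m - 1) := by
      rw [← hm, ← pow_succ']; congr 1; omega
    rw [h3, hn]
    nlinarith
  have hn_ge : n₀ ≤ n := by
    have h1 := le_w (i + 1)
    have h2 : 2 * w (i + 1) < 2 ^ (2 * w (i + 1)) := Nat.lt_two_pow_self
    omega
  have hnpos : 0 < n := lt_of_lt_of_le (by positivity) hn2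
  refine ⟨n, hn_ge, ?_⟩
  -- the square divisor
  have hdvd : (a (m + 1) * b (m + 1) * (r * d)) ^ 2 ∣ ∏ j ∈ Finset.range (l + 1), (n + j) := by
    refine dvd_trans ?_ (four_dvd_block n l hl)
    rw [hn, four_prod hmev, mul_pow]
    apply Nat.mul_dvd_mul_left
    rw [mul_pow]
    apply mul_dvd_mul
    · rw [hm, show 2 * (2 * w (i + 1)) = 4 * w (i + 1) by ring]; exact hr2
    · refine dvd_trans hd1 (b_dvd ?_)
      rw [hm]
      exact ⟨2, by ring⟩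
  have hpp : ((a (m + 1) * b (m + 1) * (r * d)) ^ 2 : ℕ) ≤
      powerfulPart (∏ j ∈ Finset.range (l + 1), (n + j)) :=
    sq_le_powerfulPart (block_ne_zero hnpos) hdvd
  refine lt_of_lt_of_le ?_ (by exact_mod_cast hpp :
    (((a (m + 1) * b (m + 1) * (r * d)) ^ 2 : ℕ) : ℝ) ≤ _)
  push_cast
  -- real variables
  have hW : (1155 : ℝ) ≤ (w i : ℝ) := by exact_mod_cast hbig
  have hXW : (w i : ℝ) < (w (i + 1) : ℝ) := by exact_mod_cast hwlt
  have hr1' : (w (i + 1) : ℝ) = (w i : ℝ) * (r : ℝ) := by exact_mod_cast hr1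
  have hd2' : (b (2 * (w i + 1)) : ℝ) ≤ 6 * (((w i : ℝ) + 1) * (d : ℝ)) := by exact_mod_cast hd2
  have hb' : 72 * ((w (i + 1) : ℝ) + 1) ≤ (b (2 * (w i + 1)) : ℝ) ^ 2 := by
    exact_mod_cast b_sq_ge i
  have hg := gain_real (by linarith) (by linarith) (Nat.cast_nonneg d) (Nat.cast_nonneg r)
    (Nat.cast_nonneg _) hr1' hd2' hb'
  have hLL := loglog_ge hi1 hn2
  have hLg : Real.log (n : ℝ) ≤ 3.54 * (w (i + 1) : ℝ) := by
    have h1 : (n : ℝ) ≤ (a (m + 1) : ℝ) ^ 2 := by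
      have h2 : n ≤ a (m + 1) ^ 2 := by omega
      exact_mod_cast h2
    have h3 := Real.log_le_log (by exact_mod_cast hnpos) h1
    have h4 := log_a_sq_le (m + 1)
    rw [hm] at h3 h4
    push_cast at h4
    nlinarith
  have hLg0 : 0 ≤ Real.log (n : ℝ) := Real.log_natCast_nonneg n
  have hA : (n : ℝ) ^ 2 < 2 * ((a (m + 1) : ℝ) * (b (m + 1) : ℝ)) ^ 2 := by
    have e1' : (n : ℝ) + 1 = (a (m + 1) : ℝ) ^ 2 := by exact_mod_cast e1
    have e2' : (n : ℝ) + 2 = 2 * (b (m + 1) : ℝ) ^ 2 := by exact_mod_cast e2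
    have h0 : (0 : ℝ) < (n : ℝ) := by exact_mod_cast hnpos
    calc (n : ℝ) ^ 2 < ((n : ℝ) + 1) * ((n : ℝ) + 2) := by nlinarith
      _ = 2 * ((a (m + 1) : ℝ) * (b (m + 1) : ℝ)) ^ 2 := by rw [e1', e2']; ring
  set L : ℝ := Real.log (n : ℝ) with hL
  set M : ℝ := Real.log L with hM
  set W : ℝ := (w i : ℝ) with hWdef
  set X : ℝ := (w (i + 1) : ℝ) with hXdef
  set S : ℝ := (a (m + 1) : ℝ) * (b (m + 1) : ℝ) with hS
  have hMpos : 0 < M := by nlinarith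
  have hW1 : 0 < W + 1 := by linarith
  have hX0 : 0 < X := by linarith
  have hM4 : (2.6 * (W + 1)) ^ 4 ≤ M ^ 4 := pow_le_pow_left₀ (by positivity) hLL 4
  have hL3 : L ^ 3 ≤ (3.54 * X) ^ 3 := pow_le_pow_left₀ hLg0 hLg 3
  have hS0 : 0 < S ^ 2 := by
    have : (0 : ℝ) < (n : ℝ) ^ 2 := by positivity
    linarith
  have hkey : 2 * (L ^ 3 / M ^ 4) ≤ (r * d : ℝ) ^ 2 := by
    refine le_trans ?_ hg
    rw [mul_div_assoc']
    rw [div_le_div_iff₀ (by positivity) (by positivity)]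
    have h1 : (2.6 : ℝ) ^ 4 * (W + 1) ^ 4 ≤ M ^ 4 := by rw [← mul_pow]; exact hM4
    have h2 : L ^ 3 ≤ (3.54 : ℝ) ^ 3 * X ^ 3 := by rw [← mul_pow]; exact hL3
    have h3 : (0 : ℝ) < (W + 1) ^ 4 := by positivity
    have h4 : (0 : ℝ) < X ^ 3 := by positivity
    have h5 : L ^ 3 * (W + 1) ^ 4 ≤ ((3.54 : ℝ) ^ 3 * X ^ 3) * (W + 1) ^ 4 :=
      mul_le_mul_of_nonneg_right h2 h3.le
    have h6 : X ^ 3 * ((2.6 : ℝ) ^ 4 * (W + 1) ^ 4) ≤ X ^ 3 * M ^ 4 :=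
      mul_le_mul_of_nonneg_left h1 h4.le
    have h7 : (3.54 : ℝ) ^ 3 ≤ (2.6 : ℝ) ^ 4 := by norm_num
    have h8 : ((3.54 : ℝ) ^ 3 * X ^ 3) * (W + 1) ^ 4 ≤ X ^ 3 * ((2.6 : ℝ) ^ 4 * (W + 1) ^ 4) := by
      have : (3.54 : ℝ) ^ 3 * (X ^ 3 * (W + 1) ^ 4) ≤ (2.6 : ℝ) ^ 4 * (X ^ 3 * (W + 1) ^ 4) :=
        mul_le_mul_of_nonneg_right h7 (by positivity)
      linarith
    linarith
  have hLpos : 0 < L := by
    rcases hLg0.lt_or_eq with h | h
    · exact h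
    · rw [hM, ← h, Real.log_zero] at hMpos
      exact absurd hMpos (lt_irrefl _)
  have hq0 : 0 < L ^ 3 / M ^ 4 := by positivity
  calc (n : ℝ) ^ 2 * L ^ 3 / M ^ 4 = (n : ℝ) ^ 2 * (L ^ 3 / M ^ 4) := by ring
    _ < (2 * S ^ 2) * (L ^ 3 / M ^ 4) := mul_lt_mul_of_pos_right hA hq0
    _ = S ^ 2 * (2 * (L ^ 3 / M ^ 4)) := by ring
    _ ≤ S ^ 2 * (r * d : ℝ) ^ 2 := mul_le_mul_of_nonneg_left hkey hS0.le
    _ = (S * (r * d)) ^ 2 := by ring

end Pool.Agent.PWC
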