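import Pool.Agent.PWC.ChainFull
import Pool.Agent.PWC.Main

set_option autoImplicit false

/-! Blocks of at least four consecutive integers: the fourth power of the logarithm. -/

namespace Pool.Agent.PWC

open Pool.Agent.Helper98.PowPart (powerfulPart powerfulPart_pos dvd_powerfulPart)

lemma three_pow_le_u (k : ℕ) : 3 ^ k ≤ u (k + 1) := by
  induction k with
  | zero => decide
  | succ k ih =>
    rw [u_succ, pow_succ]
    have := u_le_t (k + 1)
    omega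

lemma v_lower (i : ℕ) : 3 ^ (v i - 1) ≤ v (i + 1) := by
  have h1 := three_pow_le_u (v i - 1)
  rw [show v i - 1 + 1 = v i by have := v_pos i; omega, v_succ i] at h1
  exact h1

lemma v_ge (i : ℕ) : i + 3 ≤ v i := by
  induction i with
  | zero => decide
  | succ i ih =>
    have h1 := v_lower i
    have h2 : v i - 1 < 2 ^ (v i - 1) := Nat.lt_two_pow_self
    have h3 : 2 * 2 ^ (v i - 1) ≤ 3 ^ (v i - 1) + 1 := by
      have h4 : ∀ k : ℕ, 2 * 2 ^ k ≤ 3 ^ k + 1 := by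
        intro k
        induction k with
        | zero => norm_num
        | succ k ihk =>
          rw [pow_succ, pow_succ]
          have := Nat.one_le_pow k 3 (by norm_num)
          omega
      exact h4 _
    omega

/-- `x_m = t_m + 3 u_m ≤ 2 (15/4)^m` for `m ≥ 2` -/
lemma x_le (m : ℕ) : ((t (m + 2) : ℝ) + 3 * (u (m + 2) : ℝ)) ≤ 2 * (15 / 4 : ℝ) ^ (m + 2) ∧
    5 * t (m + 2) ≤ 9 * u (m + 2) := by
  induction m with
  | zero =>
    have h1 : t (0 + 2) = 7 := rfl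
    have h2 : u (0 + 2) = 4 := rfl
    rw [h1, h2]
    refine ⟨by norm_num, by norm_num⟩
  | succ m ih =>
    obtain ⟨h1, h2⟩ := ih
    have h2' : 5 * (t (m + 2) : ℝ) ≤ 9 * (u (m + 2) : ℝ) := by exact_mod_cast h2
    have e1 : t (m + 1 + 2) = 2 * t (m + 2) + 3 * u (m + 2) := t_succ (m + 2)
    have e2 : u (m + 1 + 2) = t (m + 2) + 2 * u (m + 2) := u_succ (m + 2)
    rw [e1, e2]
    refine ⟨?_, by omega⟩
    push_cast
    have e3 : (15 / 4 : ℝ) ^ (m + 1 + 2) = (15 / 4 : ℝ) ^ (m + 2) * (15 / 4) := pow_succ _ _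
    rw [e3]
    nlinarith

lemma log_fifteen : Real.log (15 / 4 : ℝ) ≤ 1.3235 := by
  have h1 : (15 / 4 : ℝ) ^ 11 ≤ 2 ^ 21 := by norm_num
  have h2 := Real.log_le_log (by positivity) h1
  rw [Real.log_pow, Real.log_pow] at h2
  have h3 := Real.log_two_lt_d9
  push_cast at h2
  linarith

lemma log_three : (1.09 : ℝ) ≤ Real.log 3 := by
  have h1 : (2 : ℝ) ^ 19 ≤ 3 ^ 12 := by norm_num
  have h2 := Real.log_le_log (by positivity) h1
  rw [Real.log_pow, Real.log_pow] at h2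
  have h3 := Real.log_two_gt_d9
  push_cast at h2
  linarith

/-- **Main theorem for blocks of length at least four.** -/
theorem full (l : ℕ) (hl : 3 ≤ l) (n₀ : ℕ) : ∃ n : ℕ, n₀ ≤ n ∧
    (n : ℝ) ^ 2 * Real.log n ^ 4 / (100 * Real.log (Real.log n) ^ 2) <
      (powerfulPart (∏ j ∈ Finset.range (l + 1), (n + j)) : ℝ) := by
  obtain ⟨i, hi⟩ : ∃ i : ℕ, i = n₀ + 600 := ⟨_, rfl⟩
  set X : ℕ := v (i + 1) with hX
  set n : ℕ := 6 * (u X * u (X + 1)) with hn
  have e1 : n + 1 = (t X + 3 * u X) ^ 2 := n_one X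
  have e3 : n + 3 = 3 * (t X + u X) ^ 2 := n_three X
  have hWn : i + 3 ≤ v i := v_ge i
  have hXn : i + 4 ≤ X := by have := v_ge (i + 1); omega
  have hn3 : 3 ^ X ≤ n := by
    have h1 := three_pow_le_u (X - 1)
    rw [show X - 1 + 1 = X by omega] at h1
    have h2 := three_pow_le_u X
    have h3 : 1 ≤ u X := u_pos (by omega)
    calc 3 ^ X ≤ u (X + 1) := h2
      _ ≤ 6 * (u X * u (X + 1)) := by nlinarith
  have hn_ge : n₀ ≤ n := by
    have h2 : X < 3 ^ X := Nat.lt_pow_self (by norm_num)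
    omega
  have hnpos : 0 < n := lt_of_lt_of_le (by positivity) hn3
  refine ⟨n, hn_ge, ?_⟩
  -- the powerful divisor
  have hdvd : ((t X + 3 * u X) * (t X + u X)) ^ 2 * E i ∣
      ∏ j ∈ Finset.range (l + 1), (n + j) := by
    refine dvd_trans ?_ (four_dvd_block n l hl)
    have h1 : (t X + 3 * u X) ^ 2 ∣ n + 1 := dvd_of_eq e1.symm
    have h3 : (t X + u X) ^ 2 ∣ n + 3 := by rw [e3]; exact dvd_mul_left _ _
    have h0 : E i ∣ n := E_dvd i
    rw [mul_pow]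
    have h4 := Nat.mul_dvd_mul (Nat.mul_dvd_mul h1 h3) h0
    refine dvd_trans h4 ⟨n + 2, by ring⟩
  have hpp : ((t X + 3 * u X) * (t X + u X)) ^ 2 * E i ≤
      powerfulPart (∏ j ∈ Finset.range (l + 1), (n + j)) := by
    apply Nat.le_of_dvd (powerfulPart_pos _)
    apply dvd_powerfulPart (block_ne_zero hnpos) hdvd
    intro p hp hpx
    rcases (hp.dvd_mul).1 hpx with h | h
    · exact Dvd.dvd.mul_right (pow_dvd_pow_of_dvd (hp.dvd_of_dvd_pow h) 2) _
    · exact Dvd.dvd.mul_left (E_powerful i p hp h) _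
  refine lt_of_lt_of_le ?_ (by exact_mod_cast hpp :
    ((((t X + 3 * u X) * (t X + u X)) ^ 2 * E i : ℕ) : ℝ) ≤ _)
  push_cast
  -- real variables
  have hWr : (600 : ℝ) ≤ (v i : ℝ) := by
    have : 600 ≤ v i := by omega
    exact_mod_cast this
  have hXr : (600 : ℝ) ≤ (X : ℝ) := by
    have : 600 ≤ X := by omega
    exact_mod_cast this
  have hsize : 2 * ((v i : ℝ) * ((v i : ℝ) + 1)) * (E i : ℝ) =
      3 * ((X : ℝ) * ((X : ℝ) + 1)) ^ 2 := by exact_mod_cast E_size i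
  have hnr : (0 : ℝ) < (n : ℝ) := by exact_mod_cast hnpos
  have hL1 : (X : ℝ) * 1.09 ≤ Real.log (n : ℝ) := by
    have h2 : ((3 : ℝ)) ^ X ≤ (n : ℝ) := by exact_mod_cast hn3
    have h3 := Real.log_le_log (by positivity) h2
    rw [Real.log_pow] at h3
    have h4 := log_three
    nlinarith
  have hM1 : ((v i : ℝ) - 1) * 1.09 ≤ Real.log (Real.log (n : ℝ)) := by
    have h2 : ((3 : ℝ)) ^ (v i - 1) ≤ (X : ℝ) := by exact_mod_cast v_lower i
    have h3 := Real.log_le_log (by positivity) h2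
    rw [Real.log_pow] at h3
    have h5 : ((v i - 1 : ℕ) : ℝ) = (v i : ℝ) - 1 := by
      rw [Nat.cast_sub (v_pos i)]; norm_num
    rw [h5] at h3
    have h4 := log_three
    have h6 : Real.log (X : ℝ) ≤ Real.log (Real.log (n : ℝ)) :=
      Real.log_le_log (by linarith) (by linarith)
    nlinarith
  have hL2 : Real.log (n : ℝ) ≤ 2.65 * (X : ℝ) := by
    have h1 : (n : ℝ) ≤ (2 * (15 / 4 : ℝ) ^ X) ^ 2 := by
      have h2 := (x_le (X - 2)).1
      rw [show X - 2 + 2 = X by omega] at h2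
      have h3 : (n : ℝ) ≤ ((t X : ℝ) + 3 * (u X : ℝ)) ^ 2 := by
        have h4 : n ≤ (t X + 3 * u X) ^ 2 := by omega
        exact_mod_cast h4
      exact le_trans h3 (pow_le_pow_left₀ (by positivity) h2 2)
    have h2 := Real.log_le_log hnr h1
    rw [Real.log_pow, Real.log_mul (by norm_num) (by positivity), Real.log_pow] at h2
    have h3 := log_fifteen
    have h4 := Real.log_two_lt_d9
    have h5 : (X : ℝ) * Real.log (15 / 4) ≤ (X : ℝ) * 1.3235 :=
      mul_le_mul_of_nonneg_left h3 (by linarith)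
    push_cast at h2
    linarith
  have hA : (n : ℝ) ^ 2 < 3 * (((t X : ℝ) + 3 * (u X : ℝ)) * ((t X : ℝ) + (u X : ℝ))) ^ 2 := by
    have e1' : (n : ℝ) + 1 = ((t X : ℝ) + 3 * (u X : ℝ)) ^ 2 := by exact_mod_cast e1
    have e3' : (n : ℝ) + 3 = 3 * ((t X : ℝ) + (u X : ℝ)) ^ 2 := by exact_mod_cast e3
    calc (n : ℝ) ^ 2 < ((n : ℝ) + 1) * ((n : ℝ) + 3) := by nlinarith
      _ = 3 * (((t X : ℝ) + 3 * (u X : ℝ)) * ((t X : ℝ) + (u X : ℝ))) ^ 2 := by
          rw [e1', e3']; ring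
  set L : ℝ := Real.log (n : ℝ) with hL
  set M : ℝ := Real.log L with hM
  set W : ℝ := (v i : ℝ) with hWdef
  set Y : ℝ := (X : ℝ) with hY
  set Z : ℝ := ((t X : ℝ) + 3 * (u X : ℝ)) * ((t X : ℝ) + (u X : ℝ)) with hZ
  set Er : ℝ := (E i : ℝ) with hEr
  have hLpos : 0 < L := by linarith
  have hMpos : 0 < M := by linarith
  have hW0 : 0 < W := by linarith
  have hY0 : 0 < Y := by linarith
  have hZ0 : 0 < Z ^ 2 := by
    have : (0 : ℝ) < (n : ℝ) ^ 2 := by positivity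
    linarith
  have hL4 : L ^ 4 ≤ (2.65 * Y) ^ 4 := pow_le_pow_left₀ hLpos.le hL2 4
  have hM2 : (1.09 * (W - 1)) ^ 2 ≤ M ^ 2 :=
    pow_le_pow_left₀ (by linarith) (by linarith) 2
  have hkey : 3 * (L ^ 4 / (100 * M ^ 2)) ≤ Er := by
    have h1 : 3 * Y ^ 4 ≤ 2 * (W * (W + 1)) * Er := by
      rw [hsize]
      have : Y ^ 4 ≤ (Y * (Y + 1)) ^ 2 := by nlinarith [mul_pos hY0 hY0, mul_pos hY0 (mul_pos hY0 hY0)]
      linarith
    have h2 : 0 ≤ Er := Nat.cast_nonneg _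
    have h3 : W * (W + 1) ≤ 0.85 * M ^ 2 := by nlinarith
    rw [mul_div_assoc', div_le_iff₀ (by positivity)]
    have h4 : 2 * (W * (W + 1)) * Er ≤ 2 * (0.85 * M ^ 2) * Er := by
      apply mul_le_mul_of_nonneg_right _ h2
      linarith
    have h5 : 3 * Y ^ 4 ≤ 1.7 * M ^ 2 * Er := by linarith
    have h6 : (2.65 * Y) ^ 4 ≤ 50 * Y ^ 4 := by
      have : (0 : ℝ) ≤ Y ^ 4 := by positivity
      rw [mul_pow]
      norm_num
      nlinarith
    have h7 : 0 ≤ M ^ 2 * Er := by positivity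
    nlinarith
  have hq0 : 0 < L ^ 4 / (100 * M ^ 2) := by positivity
  calc (n : ℝ) ^ 2 * L ^ 4 / (100 * M ^ 2) = (n : ℝ) ^ 2 * (L ^ 4 / (100 * M ^ 2)) := by ring
    _ < (3 * Z ^ 2) * (L ^ 4 / (100 * M ^ 2)) := mul_lt_mul_of_pos_right hA hq0
    _ = Z ^ 2 * (3 * (L ^ 4 / (100 * M ^ 2))) := by ring
    _ ≤ Z ^ 2 * Er := mul_le_mul_of_nonneg_left hkey hZ0.le

end Pool.Agent.PWC
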