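import Pool.Agent.Helper98.PowPart.Main

set_option autoImplicit false

/-! Further identities for `(1+√2)^k = a k + b k √2` and the general lifting lemma. -/

namespace Pool.Agent.PWC

open Pool.Agent.Helper98.PowPart

lemma b_two_mul (m : ℕ) : b (2 * m) = 2 * (a m * b m) := by
  rw [two_mul, (ab_add m m).2]; ring

/-- `a m ∣ a (m (2t+1))` -/
lemma a_dvd_mul (m t : ℕ) : a m ∣ a (m * (2 * t + 1)) := by
  induction t with
  | zero => simp
  | succ t ih =>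
    rw [show m * (2 * (t + 1) + 1) = m * (2 * t + 1) + 2 * m by ring,
      (ab_add (m * (2 * t + 1)) (2 * m)).1, b_two_mul]
    refine dvd_add (Dvd.dvd.mul_right ih _) ?_
    refine Dvd.dvd.mul_left (Dvd.dvd.mul_left (Dvd.dvd.mul_left (dvd_mul_right _ _) _) _) _

lemma a_dvd {m M : ℕ} (h : m ∣ M) (hodd : Odd (M / m)) : a m ∣ a M := by
  obtain ⟨t, ht⟩ := hodd
  have h1 : M = m * (2 * t + 1) := by rw [← ht]; exact (Nat.mul_div_cancel' h).symm
  rw [h1]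
  exact a_dvd_mul m t

lemma a_dvd_of_odd {m M : ℕ} (h : m ∣ M) (hM : Odd M) : a m ∣ a M := by
  obtain ⟨c, rfl⟩ := h
  obtain ⟨t, ht⟩ := (Nat.odd_mul.mp hM).2
  rw [ht]
  exact a_dvd_mul m t

/-- general lifting: a divisor `h` of `b (2m)` and of `M`, `m ∣ M`, gives a square divisor
of `b (2M)` of size at least `(h/m)^2` -/
lemma gain {m M h : ℕ} (hm : 0 < m) (hh : 0 < h) (h1 : m ∣ M) (h2 : h ∣ M) (h3 : h ∣ b (2 * m)) :
    ∃ d : ℕ, 0 < d ∧ d ^ 2 ∣ b (2 * M) ∧ h ≤ m * d := by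
  have hg : 0 < Nat.gcd m h := Nat.gcd_pos_of_pos_left _ hm
  have hd : h = Nat.gcd m h * (h / Nat.gcd m h) :=
    (Nat.mul_div_cancel' (Nat.gcd_dvd_right m h)).symm
  have hdpos : 0 < h / Nat.gcd m h :=
    Nat.div_pos (Nat.le_of_dvd hh (Nat.gcd_dvd_right m h)) hg
  have hlcm : m * (h / Nat.gcd m h) ∣ M := by
    have h4 : Nat.lcm m h = m * (h / Nat.gcd m h) := by
      rw [Nat.lcm, Nat.mul_div_assoc _ (Nat.gcd_dvd_right m h)]
    rw [← h4]
    exact Nat.lcm_dvd h1 h2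
  set d := h / Nat.gcd m h with hdd
  have hdb : d ∣ b (2 * m) := dvd_trans (by rw [hd]; exact dvd_mul_left _ _) h3
  refine ⟨d, hdpos, ?_, ?_⟩
  · have h5 : d * b (2 * m) ∣ b (2 * m * d) := lift hdpos hdb
    have h6 : b (2 * m * d) ∣ b (2 * M) := by
      apply b_dvd
      rw [mul_assoc]
      exact Nat.mul_dvd_mul_left 2 hlcm
    refine dvd_trans ?_ (dvd_trans h5 h6)
    rw [sq]
    exact Nat.mul_dvd_mul_left d hdb
  · calc h = Nat.gcd m h * d := hd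
      _ ≤ m * d := Nat.mul_le_mul_right d (Nat.gcd_le_left h hm)

/-- the special case `b (2m) ∣ 6 M` -/
lemma gain_six {m M : ℕ} (hm : 0 < m) (h1 : m ∣ M) (h2 : b (2 * m) ∣ 6 * M) :
    ∃ d : ℕ, 0 < d ∧ d ^ 2 ∣ b (2 * M) ∧ b (2 * m) ≤ 6 * (m * d) := by
  have hb : 0 < b (2 * m) := b_pos (by omega)
  have hg : 0 < Nat.gcd (b (2 * m)) 6 := Nat.gcd_pos_of_pos_left _ hb
  have hgd : Nat.gcd (b (2 * m)) 6 ∣ b (2 * m) := Nat.gcd_dvd_left _ _
  have hh : 0 < b (2 * m) / Nat.gcd (b (2 * m)) 6 :=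
    Nat.div_pos (Nat.le_of_dvd hb hgd) hg
  have hM : b (2 * m) / Nat.gcd (b (2 * m)) 6 ∣ M := by
    have h3 : Nat.Coprime (b (2 * m) / Nat.gcd (b (2 * m)) 6) (6 / Nat.gcd (b (2 * m)) 6) :=
      Nat.coprime_div_gcd_div_gcd hg
    apply h3.dvd_of_dvd_mul_left
    have h4 : Nat.gcd (b (2 * m)) 6 ∣ 6 := Nat.gcd_dvd_right _ _
    have h5 : 6 * M = Nat.gcd (b (2 * m)) 6 * (6 / Nat.gcd (b (2 * m)) 6 * M) := by
      rw [← mul_assoc, Nat.mul_div_cancel' h4]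
    rw [h5] at h2
    have h6 : b (2 * m) = Nat.gcd (b (2 * m)) 6 * (b (2 * m) / Nat.gcd (b (2 * m)) 6) :=
      (Nat.mul_div_cancel' hgd).symm
    have h7 : Nat.gcd (b (2 * m)) 6 * (b (2 * m) / Nat.gcd (b (2 * m)) 6) ∣
        Nat.gcd (b (2 * m)) 6 * (6 / Nat.gcd (b (2 * m)) 6 * M) := by rw [← h6]; exact h2
    exact Nat.dvd_of_mul_dvd_mul_left hg h7
  obtain ⟨d, hd0, hd1, hd2⟩ := gain hm hh h1 hM (Nat.div_dvd_of_dvd hgd)
  refine ⟨d, hd0, hd1, ?_⟩
  have h6 : b (2 * m) = Nat.gcd (b (2 * m)) 6 * (b (2 * m) / Nat.gcd (b (2 * m)) 6) :=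
    (Nat.mul_div_cancel' hgd).symm
  have h8 : Nat.gcd (b (2 * m)) 6 ≤ 6 := Nat.gcd_le_right _ (by norm_num)
  calc b (2 * m) = Nat.gcd (b (2 * m)) 6 * (b (2 * m) / Nat.gcd (b (2 * m)) 6) := h6
    _ ≤ 6 * (m * d) := Nat.mul_le_mul h8 hd2

/-! ### identities -/

lemma a_add_two (v : ℕ) : a (v + 2) = 3 * a v + 4 * b v := by
  rw [show v + 2 = (v + 1) + 1 by ring, a_succ, a_succ, b_succ]; ring

lemma b_add_two (v : ℕ) : b (v + 2) = 2 * a v + 3 * b v := by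
  rw [show v + 2 = (v + 1) + 1 by ring, b_succ, a_succ, b_succ]; ring

lemma a_add_four (v : ℕ) : a (v + 4) = 17 * a v + 24 * b v := by
  rw [show v + 4 = (v + 2) + 2 by ring, a_add_two, a_add_two, b_add_two]; ring

lemma b_add_four (v : ℕ) : b (v + 4) = 12 * a v + 17 * b v := by
  rw [show v + 4 = (v + 2) + 2 by ring, b_add_two, a_add_two, b_add_two]; ring

/-- `b_{2v+4} + b_4 = 2 a_v b_{v+4}` for even `v` -/
lemma b_plus_twelve {v : ℕ} (h : Even v) : b (2 * v + 4) + 12 = 2 * (a v * b (v + 4)) := by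
  have h1 := norm_even h
  rw [show 2 * v + 4 = v + (v + 4) by ring, (ab_add v (v + 4)).2, a_add_four, b_add_four]
  nlinarith [h1]

/-- `b_{2v+4} - b_4 = 2 b_v a_{v+4}` for even `v` -/
lemma b_minus_twelve {v : ℕ} (h : Even v) : b (2 * v + 4) = 2 * (b v * a (v + 4)) + 12 := by
  have h1 := norm_even h
  rw [show 2 * v + 4 = v + (v + 4) by ring, (ab_add v (v + 4)).2, a_add_four, b_add_four]
  nlinarith [h1]

/-- `b_{2v+2} + b_2 = 2 a_{v+2} b_v` for odd `v` -/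
lemma b_plus_two {v : ℕ} (h : Odd v) : b (2 * v + 2) + 2 = 2 * (a (v + 2) * b v) := by
  have h1 := norm_odd h
  rw [show 2 * v + 2 = v + (v + 2) by ring, (ab_add v (v + 2)).2, a_add_two, b_add_two]
  nlinarith [h1]

/-- `a_{m+1}^2 + 2 = a_m a_{m+2}` for even `m` -/
lemma fourth {m : ℕ} (h : Even m) : a (m + 1) ^ 2 + 2 = a m * a (m + 2) := by
  have h1 := norm_even h
  rw [a_succ, a_add_two]
  nlinarith [h1]

/-- `b_{m+3}^2 = b_m b_{m+6} + 25` for even `m` -/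
lemma far {m : ℕ} (h : Even m) : b (m + 3) ^ 2 = b m * b (m + 6) + 25 := by
  have h1 := norm_even h
  have h2 : b (m + 6) = 70 * a m + 99 * b m := by
    rw [show m + 6 = (m + 4) + 2 by ring, b_add_two (m + 4), a_add_four, b_add_four]; ring
  have h3 : b (m + 3) = 5 * a m + 7 * b m := by
    rw [show m + 3 = (m + 2) + 1 by ring, b_succ, a_add_two, b_add_two]; ring
  rw [h2, h3]
  nlinarith [h1]

/-! ### growth -/

lemma b_le_a (k : ℕ) : b k ≤ a k := by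
  induction k with
  | zero => simp [b_zero]
  | succ k ih => rw [a_succ, b_succ]; omega

lemma two_pow_le_b (k : ℕ) : 2 ^ k ≤ b (k + 1) := by
  induction k with
  | zero => simp [b_succ, a_zero]
  | succ k ih =>
    rw [b_succ, pow_succ]
    have := b_le_a (k + 1)
    omega

lemma two_pow_le_a (k : ℕ) : 2 ^ k ≤ a (k + 1) := le_trans (two_pow_le_b k) (b_le_a _)

lemma a_mono {m n : ℕ} (h : m ≤ n) : a m ≤ a n := by
  induction h with
  | refl => exact le_refl _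
  | step _ ih => exact le_trans ih (by rw [a_succ]; omega)

lemma b_mono {m n : ℕ} (h : m ≤ n) : b m ≤ b n := by
  induction h with
  | refl => exact le_refl _
  | step _ ih => exact le_trans ih (by rw [b_succ]; omega)

/-- upper bound for the logarithm of `a_k ^ 2` -/
lemma log_a_sq_le (k : ℕ) : Real.log ((a k : ℝ) ^ 2) ≤ 30 / 17 * (k : ℝ) := by
  have h0 : (0 : ℝ) < (a k : ℝ) := by exact_mod_cast a_pos k
  have h1 := (growth k).1
  have h2 : Real.log (a k : ℝ) ≤ Real.log ((2.4143 : ℝ) ^ k) := Real.log_le_log h0 h1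
  rw [Real.log_pow] at h2
  rw [Real.log_pow]
  have h3 : (k : ℝ) * Real.log 2.4143 ≤ (k : ℝ) * (15 / 17) :=
    mul_le_mul_of_nonneg_left log_rho.le (Nat.cast_nonneg k)
  push_cast
  linarith

/-- a square divisor is at most the powerful part -/
lemma sq_le_powerfulPart {x m : ℕ} (hm : m ≠ 0) (h : x ^ 2 ∣ m) : x ^ 2 ≤ powerfulPart m := by
  apply Nat.le_of_dvd (powerfulPart_pos m)
  apply dvd_powerfulPart hm h
  intro p hp hpx
  exact pow_dvd_pow_of_dvd (hp.dvd_of_dvd_pow hpx) 2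

end Pool.Agent.PWC
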