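import Pool.Agent.PWC.Tower

set_option autoImplicit false

/-! Blocks of three consecutive integers: the chain `x ↦ 2 b(69 x) / b(138)`. -/

namespace Pool.Agent.PWC

open Pool.Agent.Helper98.PowPart

/-! ### parity -/

lemma a_mod_two (n : ℕ) : a n % 2 = 1 := by
  induction n with
  | zero => rfl
  | succ n ih => rw [a_succ]; omega

lemma b_mod_two (n : ℕ) : b n % 2 = n % 2 := by
  induction n with
  | zero => rfl
  | succ n ih => have := a_mod_two n; rw [b_succ]; omega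

/-! ### lifting for `a` -/

lemma a_form (m t : ℕ) : ∃ r s : ℕ,
    a (m * (2 * t + 1)) = (2 * t + 1) * (2 * b m ^ 2) ^ t * a m + a m ^ 3 * r ∧
    b (m * (2 * t + 1)) = (2 * b m ^ 2) ^ t * b m + a m ^ 2 * s := by
  induction t with
  | zero => exact ⟨0, 0, by simp, by simp⟩
  | succ t ih =>
    obtain ⟨r, s, h1, h2⟩ := ih
    have e1 : a (2 * m) = a m ^ 2 + 2 * b m ^ 2 := by
      rw [two_mul, (ab_add m m).1]; ring
    have e2 : b (2 * m) = 2 * (a m * b m) := b_two_mul m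
    have e3 : m * (2 * (t + 1) + 1) = m * (2 * t + 1) + 2 * m := by ring
    refine ⟨(2 * t + 1) * (2 * b m ^ 2) ^ t + r * (a m ^ 2 + 2 * b m ^ 2) +
      4 * b m * s, 2 * b m * (2 * t + 1) * (2 * b m ^ 2) ^ t + 2 * a m ^ 2 * r * b m +
      (2 * b m ^ 2) ^ t * b m + s * (a m ^ 2 + 2 * b m ^ 2), ?_, ?_⟩
    · rw [e3, (ab_add _ _).1, e1, e2, h1, h2]; ring
    · rw [e3, (ab_add _ _).2, e1, e2, h1, h2]; ring

/-- lifting: if an odd `p` divides `a m` then `p * a m ∣ a (m * p)` -/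
lemma lift_a {m p : ℕ} (hp : Odd p) (h : p ∣ a m) : p * a m ∣ a (m * p) := by
  obtain ⟨t, rfl⟩ := hp
  obtain ⟨r, s, h1, -⟩ := a_form m t
  rw [h1]
  refine dvd_add ?_ ?_
  · rw [mul_assoc]
    exact Nat.mul_dvd_mul_left _ (dvd_mul_left _ _)
  · refine Dvd.dvd.mul_right ?_ r
    rw [show a m ^ 3 = (a m * a m) * a m by ring]
    exact Nat.mul_dvd_mul_right (Dvd.dvd.mul_right h _) _

/-! ### the chain -/

/-- the chain of odd numbers starting at `47` -/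
def z : ℕ → ℕ
  | 0 => 47
  | (i + 1) => (b (69 * (z i + 2)) / b 69) * (a (69 * z i) / a 69)

lemma z_succ (i : ℕ) : z (i + 1) = (b (69 * (z i + 2)) / b 69) * (a (69 * z i) / a 69) := rfl

/-- `C = a_69 b_69` -/
def C : ℕ := a 69 * b 69

lemma C_pos : 0 < C := Nat.mul_pos (a_pos 69) (b_pos (by norm_num))

lemma b138 : b 138 = 2 * C := by
  rw [show 138 = 2 * 69 by norm_num, b_two_mul, C]

/-- data for one step -/
lemma step_data {v : ℕ} (hv : v % 2 = 1) : ∃ α β γ δ : ℕ,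
    a (69 * (v + 2)) = a 69 * α ∧ b (69 * v) = b 69 * β ∧
    b (69 * (v + 2)) = b 69 * γ ∧ a (69 * v) = a 69 * δ ∧
    α * β = γ * δ + 2 ∧ (α * β + γ * δ) * C = b (69 * (2 * v + 2)) ∧
    γ % 2 = 1 ∧ δ % 2 = 1 := by
  obtain ⟨t, ht⟩ : ∃ t, v = 2 * t + 1 := ⟨v / 2, by omega⟩
  have h1 : a 69 ∣ a (69 * (v + 2)) := by
    rw [ht, show 2 * t + 1 + 2 = 2 * (t + 1) + 1 by ring]; exact a_dvd_mul 69 (t + 1)
  have h2 : b 69 ∣ b (69 * v) := b_dvd_mul _ _
  have h3 : b 69 ∣ b (69 * (v + 2)) := b_dvd_mul _ _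
  have h4 : a 69 ∣ a (69 * v) := by rw [ht]; exact a_dvd_mul 69 t
  obtain ⟨α, hα⟩ := h1
  obtain ⟨β, hβ⟩ := h2
  obtain ⟨γ, hγ⟩ := h3
  obtain ⟨δ, hδ⟩ := h4
  have hodd : Odd (69 * v) := by rw [Nat.odd_iff]; omega
  have hn := norm_odd hodd
  have e1 : 69 * (v + 2) = 69 * v + 138 := by ring
  have key : a (69 * (v + 2)) * b (69 * v) = b (69 * (v + 2)) * a (69 * v) + b 138 := by
    rw [e1, (ab_add (69 * v) 138).1, (ab_add (69 * v) 138).2]
    nlinarith [hn]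
  have key2 : a (69 * (v + 2)) * b (69 * v) + b (69 * (v + 2)) * a (69 * v) =
      b (69 * (2 * v + 2)) := by
    rw [show 69 * (2 * v + 2) = 69 * (v + 2) + 69 * v by ring, (ab_add _ _).2]
  refine ⟨α, β, γ, δ, hα, hβ, hγ, hδ, ?_, ?_, ?_, ?_⟩
  · rw [hα, hβ, hγ, hδ, b138, C] at key
    have h5 : (a 69 * b 69) * (α * β) = (a 69 * b 69) * (γ * δ + 2) := by linarith
    exact Nat.eq_of_mul_eq_mul_left C_pos h5
  · rw [← key2, hα, hβ, hγ, hδ, C]; ring
  · have h5 := b_mod_two (69 * (v + 2))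
    rw [hγ, Nat.mul_mod] at h5
    rcases Nat.mod_two_eq_zero_or_one γ with h6 | h6
    · rw [h6] at h5; omega
    · exact h6
  · have h5 := a_mod_two (69 * v)
    rw [hδ, Nat.mul_mod] at h5
    rcases Nat.mod_two_eq_zero_or_one δ with h6 | h6
    · rw [h6] at h5; omega
    · exact h6

lemma z_odd (i : ℕ) : z i % 2 = 1 := by
  induction i with
  | zero => rfl
  | succ i ih =>
    obtain ⟨α, β, γ, δ, h1, h2, h3, h4, h5, h6, h7, h8⟩ := step_data ih
    rw [z_succ, h3, h4, Nat.mul_div_cancel_left _ (b_pos (by norm_num)),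
      Nat.mul_div_cancel_left _ (a_pos 69), Nat.mul_mod, h7, h8]

/-- the four factors at level `i` -/
lemma z_data (i : ℕ) : ∃ α β γ δ : ℕ,
    a (69 * (z i + 2)) = a 69 * α ∧ b (69 * z i) = b 69 * β ∧
    b (69 * (z i + 2)) = b 69 * γ ∧ a (69 * z i) = a 69 * δ ∧
    z (i + 1) = γ * δ ∧ z (i + 1) + 2 = α * β ∧
    (2 * z (i + 1) + 2) * C = b (69 * (2 * z i + 2)) := by
  obtain ⟨α, β, γ, δ, h1, h2, h3, h4, h5, h6, h7, h8⟩ := step_data (z_odd i)
  have e : z (i + 1) = γ * δ := by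
    rw [z_succ, h3, h4, Nat.mul_div_cancel_left _ (b_pos (by norm_num)),
      Nat.mul_div_cancel_left _ (a_pos 69)]
  refine ⟨α, β, γ, δ, h1, h2, h3, h4, e, by rw [e, h5], ?_⟩
  rw [← h6, e, h5]
  ring

/-- the even index `y i = 2 z i + 2` -/
def y (i : ℕ) : ℕ := 2 * z i + 2

lemma y_eq (i : ℕ) : y (i + 1) * C = b (69 * y i) := by
  obtain ⟨α, β, γ, δ, h1, h2, h3, h4, h5, h6, h7⟩ := z_data i
  exact h7

lemma y_eq' (i j : ℕ) (h : j = i + 1) : y j * C = b (69 * y i) := by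
  subst h; exact y_eq i

/-! ### base of the chain -/

lemma seven_dvd : 7 ∣ a 69 := dvd_trans (by decide : 7 ∣ a 3) (a_dvd_mul 3 11)

lemma fortyseven_dvd : 47 ∣ a 69 :=
  dvd_trans (by decide +kernel : 47 ∣ a 23) (a_dvd_mul 23 1)

lemma base_z : z 0 ∣ z 1 := by
  obtain ⟨α, β, γ, δ, h1, h2, h3, h4, h5, h6, h7⟩ := z_data 0
  have h8 := lift_a (m := 69) (p := 47) ⟨23, rfl⟩ fortyseven_dvd
  have e0 : z 0 = 47 := rfl
  rw [e0] at h4 ⊢
  rw [h4, mul_comm 47] at h8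
  rw [show (1 : ℕ) = 0 + 1 from rfl, h5]
  exact Dvd.dvd.mul_left (Nat.dvd_of_mul_dvd_mul_left (a_pos 69) h8) _

lemma base_u : z 0 + 2 ∣ z 1 + 2 := by
  obtain ⟨α, β, γ, δ, h1, h2, h3, h4, h5, h6, h7⟩ := z_data 0
  have h8 := lift_a (m := 69) (p := 7) ⟨3, rfl⟩ seven_dvd
  have h9 := lift_a (m := 69 * 7) (p := 7) ⟨3, rfl⟩
    (dvd_trans (dvd_mul_right 7 (a 69)) h8)
  have e0 : z 0 = 47 := rfl
  rw [e0] at h1 ⊢
  have h10 : a 69 * 49 ∣ a (69 * (47 + 2)) := by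
    rw [show 69 * (47 + 2) = 69 * 7 * 7 by norm_num]
    refine dvd_trans ?_ h9
    rw [show a 69 * 49 = 7 * (7 * a 69) by ring]
    exact Nat.mul_dvd_mul_left 7 h8
  rw [h1] at h10
  rw [show (1 : ℕ) = 0 + 1 from rfl, h6]
  exact Dvd.dvd.mul_right (Nat.dvd_of_mul_dvd_mul_left (a_pos 69) h10) _

/-- if a prime `p` divides `b s` and not `b t` then it does not divide `b (s c + t)` -/
lemma not_dvd_b {p s t c : ℕ} (hp : p.Prime) (h1 : p ∣ b s) (h2 : ¬ p ∣ b t) :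
    ¬ p ∣ b (s * c + t) := by
  intro h
  have h3 : p ∣ b (s * c) := dvd_trans h1 (b_dvd_mul _ _)
  rw [(ab_add (s * c) t).2] at h
  have h4 : p ∣ a (s * c) * b t :=
    (Nat.dvd_add_left (Dvd.dvd.mul_right h3 _)).1 h
  rcases (hp.dvd_mul).1 h4 with h5 | h5
  · exact Nat.Prime.one_lt hp |>.ne' (Nat.eq_one_of_dvd_coprimes (coprime_ab (s * c)) h5 h3)
  · exact h2 h5

lemma three_ndvd : ¬ 3 ∣ b 138 := by
  have h := not_dvd_b (p := 3) (s := 4) (t := 2) (c := 34) (by norm_num)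
    (by decide) (by decide)
  exact h

lemma eleven_ndvd : ¬ 11 ∣ b 138 := by
  have h := not_dvd_b (p := 11) (s := 12) (t := 6) (c := 11) (by norm_num)
    (by decide +kernel) (by decide)
  exact h

lemma twentythree_ndvd : ¬ 23 ∣ b 138 := by
  have h := not_dvd_b (p := 23) (s := 22) (t := 6) (c := 6) (by norm_num)
    (by decide +kernel) (by decide)
  exact h

/-- `3 * y 0 ∣ y 1` -/
lemma base_y : 3 * y 0 ∣ y 1 := by
  have e0 : y 0 = 96 := rfl
  have h1 : y 1 * C = b (69 * 96) := by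
    rw [y_eq' 0 1 rfl, e0]
  have h2 : 2 ∣ b 138 := by rw [b138]; exact dvd_mul_right _ _
  have l1 := lift (k := 138) (p := 2) (by norm_num) h2
  have l2 := lift (k := 138 * 2) (p := 2) (by norm_num)
    (dvd_trans (dvd_mul_right 2 (b 138)) l1)
  have l3 := lift (k := 138 * 2 * 2) (p := 2) (by norm_num)
    (dvd_trans (dvd_mul_right 2 _) l2)
  have l4 := lift (k := 138 * 2 * 2 * 2) (p := 2) (by norm_num)
    (dvd_trans (dvd_mul_right 2 _) l3)
  have h16 : 16 * b 138 ∣ b 2208 := by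
    have m1 := Nat.mul_dvd_mul_left 2 l1
    have m2 := Nat.mul_dvd_mul_left 2 (dvd_trans m1 l2)
    have m3 := Nat.mul_dvd_mul_left 2 (dvd_trans m2 l3)
    have m4 := dvd_trans m3 l4
    rw [show 138 * 2 * 2 * 2 * 2 = 2208 by norm_num] at m4
    refine dvd_trans (dvd_of_eq ?_) m4
    ring
  have h3 : 3 ∣ b 2208 := dvd_trans (by decide : 3 ∣ b 4) (b_dvd ⟨552, by norm_num⟩)
  have hcop : Nat.Coprime 3 (16 * b 138) := by
    rw [Nat.Prime.coprime_iff_not_dvd Nat.prime_three]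
    intro h
    rcases (Nat.prime_three.dvd_mul).1 h with h5 | h5
    · exact absurd h5 (by norm_num)
    · exact three_ndvd h5
  have h48 : 3 * (16 * b 138) ∣ b 2208 := hcop.mul_dvd_of_dvd_of_dvd h3 h16
  have l5 := lift (k := 2208) (p := 3) (by norm_num) h3
  have h144 : 3 * (3 * (16 * b 138)) ∣ b (69 * 96) := by
    have := dvd_trans (Nat.mul_dvd_mul_left 3 h48) l5
    rw [show 2208 * 3 = 69 * 96 by norm_num] at this
    exact this
  rw [e0]
  have h6 : (3 * 96) * C ∣ y 1 * C := by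
    rw [h1]
    refine dvd_trans (dvd_of_eq ?_) h144
    rw [b138]; ring
  exact Nat.dvd_of_mul_dvd_mul_right C_pos h6

/-! ### invariants -/

lemma z_dvd (i : ℕ) : z i ∣ z (i + 1) ∧ z i + 2 ∣ z (i + 1) + 2 := by
  induction i with
  | zero => exact ⟨base_z, base_u⟩
  | succ i ih =>
    obtain ⟨ih1, ih2⟩ := ih
    obtain ⟨α, β, γ, δ, h1, h2, h3, h4, h5, h6, h7⟩ := z_data i
    obtain ⟨α', β', γ', δ', h1', h2', h3', h4', h5', h6', h7'⟩ := z_data (i + 1)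
    have o1 := z_odd (i + 1)
    have hbpos : 0 < b 69 := b_pos (by norm_num)
    have d1 : α ∣ α' := by
      have h : a (69 * (z i + 2)) ∣ a (69 * (z (i + 1) + 2)) := by
        apply a_dvd_of_odd (Nat.mul_dvd_mul_left 69 ih2)
        rw [Nat.odd_iff]; omega
      rw [h1, h1'] at h
      exact Nat.dvd_of_mul_dvd_mul_left (a_pos 69) h
    have d2 : β ∣ β' := by
      have h : b (69 * z i) ∣ b (69 * z (i + 1)) := b_dvd (Nat.mul_dvd_mul_left 69 ih1)
      rw [h2, h2'] at h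
      exact Nat.dvd_of_mul_dvd_mul_left hbpos h
    have d3 : γ ∣ γ' := by
      have h : b (69 * (z i + 2)) ∣ b (69 * (z (i + 1) + 2)) :=
        b_dvd (Nat.mul_dvd_mul_left 69 ih2)
      rw [h3, h3'] at h
      exact Nat.dvd_of_mul_dvd_mul_left hbpos h
    have d4 : δ ∣ δ' := by
      have h : a (69 * z i) ∣ a (69 * z (i + 1)) := by
        apply a_dvd_of_odd (Nat.mul_dvd_mul_left 69 ih1)
        rw [Nat.odd_iff]; omega
      rw [h4, h4'] at h
      exact Nat.dvd_of_mul_dvd_mul_left (a_pos 69) h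
    refine ⟨?_, ?_⟩
    · rw [h5, h5']; exact mul_dvd_mul d3 d4
    · rw [h6, h6']; exact mul_dvd_mul d1 d2

/-- a prime growing once grows forever -/
lemma grow {p i : ℕ} (hp : 0 < p) (h1 : p * y i ∣ y (i + 1)) (h2 : p ∣ b (69 * y i)) :
    p * y (i + 1) ∣ y (i + 2) ∧ p ∣ b (69 * y (i + 1)) := by
  have hy1 := y_eq i
  have hy2 := y_eq (i + 1)
  have h3 := lift (k := 69 * y i) hp h2
  have h4 : b (69 * y i * p) ∣ b (69 * y (i + 1)) := by
    apply b_dvd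
    rw [mul_assoc, mul_comm (y i) p]
    exact Nat.mul_dvd_mul_left 69 h1
  have h5 : p * b (69 * y i) ∣ b (69 * y (i + 1)) := dvd_trans h3 h4
  refine ⟨?_, dvd_trans (dvd_mul_right _ _) h5⟩
  rw [← hy1, ← hy2, ← mul_assoc] at h5
  exact Nat.dvd_of_mul_dvd_mul_right C_pos h5

lemma grow_three (i : ℕ) : 3 * y i ∣ y (i + 1) ∧ 3 ∣ b (69 * y i) := by
  induction i with
  | zero =>
    refine ⟨base_y, ?_⟩
    have e0 : y 0 = 96 := rfl
    rw [e0]
    exact dvd_trans (by decide : 3 ∣ b 4) (b_dvd ⟨1656, by norm_num⟩)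
  | succ i ih => exact grow (by norm_num) ih.1 ih.2

lemma y_dvd (i : ℕ) : y i ∣ y (i + 1) := dvd_trans (dvd_mul_left _ _) (grow_three i).1

lemma y_pos (i : ℕ) : 0 < y i := by rw [y]; omega

lemma eleven_dvd_y : 11 ∣ y 1 := by
  have e0 : y 0 = 96 := rfl
  have h1 : y 1 * C = b (69 * 96) := by
    rw [y_eq' 0 1 rfl, e0]
  have h2 : 11 ∣ y 1 * C := by
    rw [h1]
    exact dvd_trans (by decide +kernel : 11 ∣ b 12) (b_dvd ⟨552, by norm_num⟩)
  rcases (Nat.Prime.dvd_mul (by norm_num : Nat.Prime 11)).1 h2 with h | h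
  · exact h
  · exact absurd (by rw [b138]; exact Dvd.dvd.mul_left h 2) eleven_ndvd

lemma twentythree_dvd_y : 23 ∣ b (69 * y 1) ∧ 23 ∣ y 2 := by
  have h1 : 23 ∣ b (69 * y 1) := by
    refine dvd_trans (by decide +kernel : 23 ∣ b 22) (b_dvd ?_)
    have h2 : 2 ∣ y 1 := by rw [y]; exact ⟨z 1 + 1, by ring⟩
    have h3 : 2 * 11 ∣ y 1 :=
      Nat.Coprime.mul_dvd_of_dvd_of_dvd (by norm_num) h2 eleven_dvd_y
    exact Dvd.dvd.mul_left h3 69
  refine ⟨h1, ?_⟩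
  rw [← y_eq' 1 2 rfl] at h1
  rcases (Nat.Prime.dvd_mul (by norm_num : Nat.Prime 23)).1 h1 with h | h
  · exact h
  · exact absurd (by rw [b138]; exact Dvd.dvd.mul_left h 2) twentythree_ndvd

end Pool.Agent.PWC
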