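import Pool.Agent.PWC.PowerChain

set_option autoImplicit false

/-! Blocks of three consecutive integers: an exponent of the logarithm larger than two. -/

namespace Pool.Agent.PWC

open Pool.Agent.Helper98.PowPart

lemma y_zero : y 0 = 96 := rfl

attribute [local irreducible] y z

/-- `gain` for a divisor of `c * M` -/
lemma gain_const {m M h c : ℕ} (hm : 0 < m) (hh : 0 < h) (hc : 0 < c) (h1 : m ∣ M)
    (h2 : h ∣ c * M) (h3 : h ∣ b (2 * m)) :
    ∃ d : ℕ, 0 < d ∧ d ^ 2 ∣ b (2 * M) ∧ h ≤ c * (m * d) := by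
  have hg : 0 < Nat.gcd h c := Nat.gcd_pos_of_pos_left _ hh
  have hgd : Nat.gcd h c ∣ h := Nat.gcd_dvd_left _ _
  have hgc : Nat.gcd h c ∣ c := Nat.gcd_dvd_right _ _
  have hh' : 0 < h / Nat.gcd h c := Nat.div_pos (Nat.le_of_dvd hh hgd) hg
  have h6 : h = Nat.gcd h c * (h / Nat.gcd h c) := (Nat.mul_div_cancel' hgd).symm
  have hM : h / Nat.gcd h c ∣ M := by
    have h4 : Nat.Coprime (h / Nat.gcd h c) (c / Nat.gcd h c) := Nat.coprime_div_gcd_div_gcd hg
    apply h4.dvd_of_dvd_mul_left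
    have h5 : c * M = Nat.gcd h c * (c / Nat.gcd h c * M) := by
      rw [← mul_assoc, Nat.mul_div_cancel' hgc]
    rw [h5] at h2
    have h7 : Nat.gcd h c * (h / Nat.gcd h c) ∣ Nat.gcd h c * (c / Nat.gcd h c * M) := by
      rw [← h6]; exact h2
    exact Nat.dvd_of_mul_dvd_mul_left hg h7
  obtain ⟨d, hd0, hd1, hd2⟩ := gain hm hh' h1 hM (dvd_trans (Nat.div_dvd_of_dvd hgd) h3)
  refine ⟨d, hd0, hd1, ?_⟩
  have h8 : Nat.gcd h c ≤ c := Nat.gcd_le_right _ hc
  calc h = Nat.gcd h c * (h / Nat.gcd h c) := h6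
    _ ≤ c * (m * d) := Nat.mul_le_mul h8 hd2

lemma grow_twentythree (i : ℕ) : 23 * y (i + 1) ∣ y (i + 2) ∧ 23 ∣ b (69 * y (i + 1)) := by
  induction i with
  | zero =>
    obtain ⟨h1, h2⟩ := twentythree_dvd_y
    have h3 : ¬ 23 ∣ y 1 := by
      intro h
      have e0 : y 0 = 96 := y_zero
      have h4 : y 1 * C = b (69 * 96) := by
        rw [y_eq' 0 1 rfl, e0]
      have h5 : 23 ∣ b (69 * 96) := by rw [← h4]; exact Dvd.dvd.mul_right h _
      have h6 := not_dvd_b (p := 23) (s := 22) (t := 2) (c := 301) (by norm_num)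
        (by decide +kernel) (by decide)
      rw [show 22 * 301 + 2 = 69 * 96 by norm_num] at h6
      exact h6 h5
    have hcop : Nat.Coprime 23 (y 1) :=
      (Nat.Prime.coprime_iff_not_dvd (by norm_num)).2 h3
    exact ⟨hcop.mul_dvd_of_dvd_of_dvd h2 (y_dvd 1), h1⟩
  | succ i ih => exact grow (by norm_num) ih.1 ih.2

/-- `69 * y (i+1) ∣ y (i+2)` -/
lemma k_dvd (i : ℕ) : 69 * y (i + 1) ∣ y (i + 2) := by
  obtain ⟨s, hs⟩ := y_dvd (i + 1)
  have h3 := (grow_three (i + 1)).1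
  have h23 := (grow_twentythree i).1
  have hpos := y_pos (i + 1)
  have e : y (i + 2) = y (i + 1) * s := hs
  have e1 : 3 ∣ s := by
    have h : y (i + 1) * 3 ∣ y (i + 1) * s := by rw [← e, mul_comm]; exact h3
    exact Nat.dvd_of_mul_dvd_mul_left hpos h
  have e2 : 23 ∣ s := by
    have h : y (i + 1) * 23 ∣ y (i + 1) * s := by rw [← e, mul_comm]; exact h23
    exact Nat.dvd_of_mul_dvd_mul_left hpos h
  have e3 : 3 * 23 ∣ s := Nat.Coprime.mul_dvd_of_dvd_of_dvd (by norm_num) e1 e2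
  rw [e, mul_comm 69]
  exact Nat.mul_dvd_mul_left _ e3

lemma y_ge (i : ℕ) : i + 96 ≤ y i := by
  induction i with
  | zero => rw [y_zero]
  | succ i ih =>
    have h1 := Nat.le_of_dvd (y_pos (i + 1)) (grow_three i).1
    omega

/-- the gain at the index `y (i+2)` -/
lemma gain_y (i : ℕ) : ∃ r : ℕ, y (i + 2) = 69 * y (i + 1) * r ∧ r ^ 2 ∣ b (y (i + 2)) := by
  obtain ⟨r, hr⟩ := k_dvd i
  refine ⟨r, hr, ?_⟩
  have hrpos : 0 < r := by
    rcases Nat.eq_zero_or_pos r with h | h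
    · rw [h, mul_zero] at hr
      have := y_pos (i + 2)
      omega
    · exact h
  have h1 : r ∣ b (69 * y (i + 1)) := by
    rw [← y_eq' (i + 1) (i + 2) rfl, hr]
    exact Dvd.dvd.mul_right (dvd_mul_left _ _) _
  have h2 := lift hrpos h1
  rw [← hr] at h2
  refine dvd_trans ?_ h2
  rw [sq]
  exact Nat.mul_dvd_mul_left r h1

/-- the gain at the index `y (i+1) + 2` -/
lemma gain_u (i : ℕ) : ∃ d : ℕ, 0 < d ∧ d ^ 2 ∣ b (y (i + 1) + 2) ∧
    a (z i + 2) ≤ a 69 * ((z i + 2) * d) := by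
  obtain ⟨α, β, γ, δ, h1, h2, h3, h4, h5, h6, h7⟩ := z_data i
  have hdvd : a (z i + 2) ∣ a 69 * (z (i + 1) + 2) := by
    rw [h6, ← mul_assoc, ← h1, mul_comm 69 (z i + 2)]
    exact Dvd.dvd.mul_right (a_dvd_mul (z i + 2) 34) _
  have hb : a (z i + 2) ∣ b (2 * (z i + 2)) := by
    rw [b_two_mul]; exact Dvd.dvd.mul_left (dvd_mul_right _ _) 2
  obtain ⟨d, hd0, hd1, hd2⟩ := gain_const (Nat.succ_pos _) (a_pos _) (a_pos 69)
    (z_dvd i).2 hdvd hb
  refine ⟨d, hd0, ?_, hd2⟩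
  rw [show y (i + 1) + 2 = 2 * (z (i + 1) + 2) by rw [y]; ring]
  exact hd1

/-! ### sizes -/

lemma a_ratio (k : ℕ) : 705 * a (k + 4) ≤ 1000 * b (k + 4) ∧
    10000 * b (k + 4) ≤ 7195 * a (k + 4) ∧
    (2.41 : ℝ) ^ (k + 4) ≤ 2 * (a (k + 4) : ℝ) := by
  induction k with
  | zero =>
    have h1 : a (0 + 4) = 17 := rfl
    have h2 : b (0 + 4) = 12 := rfl
    rw [h1, h2]
    refine ⟨by norm_num, by norm_num, by norm_num⟩
  | succ k ih =>
    obtain ⟨h1, h2, h3⟩ := ih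
    have e1 : a (k + 1 + 4) = a (k + 4) + 2 * b (k + 4) := a_succ (k + 4)
    have e2 : b (k + 1 + 4) = a (k + 4) + b (k + 4) := b_succ (k + 4)
    rw [e1, e2]
    refine ⟨by omega, by omega, ?_⟩
    have h1' : 705 * (a (k + 4) : ℝ) ≤ 1000 * (b (k + 4) : ℝ) := by exact_mod_cast h1
    have e3 : (2.41 : ℝ) ^ (k + 1 + 4) = 2.41 * (2.41 : ℝ) ^ (k + 4) := by
      rw [show k + 1 + 4 = (k + 4) + 1 by ring, pow_succ]; ring
    rw [e3]
    push_cast
    linarith

lemma log_lower : (0.8779 : ℝ) ≤ Real.log 2.41 := by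
  have h1 : (2 : ℝ) ^ 19 ≤ (2.41 : ℝ) ^ 15 := by norm_num
  have h2 := Real.log_le_log (by positivity) h1
  rw [Real.log_pow, Real.log_pow] at h2
  have h3 := Real.log_two_gt_d9
  push_cast at h2
  linarith

lemma log_two_b' (k : ℕ) (hk : 1 ≤ k) : Real.log (2 * (b k : ℝ)) ≤ 0.35 + 15 / 17 * (k : ℝ) := by
  have h1 := (growth k).2
  have hb : (0 : ℝ) < (b k : ℝ) := by exact_mod_cast b_pos (by omega)
  have h2 := Real.log_le_log (by positivity) h1
  have e0 : Real.log (1.4143 * (2.4143 : ℝ) ^ k) = Real.log 1.4143 + k * Real.log 2.4143 := by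
    rw [Real.log_mul (by norm_num) (by positivity), Real.log_pow]
  rw [e0] at h2
  have h3 : Real.log (1.4143 : ℝ) ≤ 0.35 := by
    have h4 : (1.4143 : ℝ) ^ 2 ≤ 2.001 := by norm_num
    have h5 := Real.log_le_log (by positivity) h4
    rw [Real.log_pow] at h5
    have h6 : Real.log (2.001 : ℝ) ≤ 0.7 := by
      have h7 : (2.001 : ℝ) = 2 * 1.0005 := by norm_num
      rw [h7, Real.log_mul (by norm_num) (by norm_num)]
      have h8 := Real.log_le_sub_one_of_pos (show (0 : ℝ) < 1.0005 by norm_num)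
      have h9 := Real.log_two_lt_d9
      linarith
    push_cast at h5
    linarith
  have h4 : (k : ℝ) * Real.log 2.4143 ≤ (k : ℝ) * (15 / 17) :=
    mul_le_mul_of_nonneg_left log_rho.le (Nat.cast_nonneg k)
  linarith

/-- the final real inequality -/
lemma final_real {x X r d u G L : ℝ} (hL0 : 0 < L) (hL : L ≤ 2 * X) (hr : X = 69 * x * r)
    (hu : 2 * u = x + 2) (hG : 1 ≤ G) (hx : 100000000000000000000 * G ^ 2 ≤ x)
    (hlogX : Real.log (2 * X) ≤ 0.35 + 15 / 17 * (69 * x))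
    (hd : Real.exp (0.8779 * x) ≤ (2 * G * (u * d)) ^ 2) :
    2 * L ^ (2 + 1 / 70 : ℝ) ≤ (r * d) ^ 2 := by
  have hG2 : 1 ≤ G ^ 2 := one_le_pow₀ hG
  have hx0 : 0 < x := by nlinarith
  have hX0 : 0 < X := by linarith
  have h1 : L ^ (2 + 1 / 70 : ℝ) ≤ (2 * X) ^ 2 * Real.exp (0.005 + 0.8699 * x) := by
    have h2 : L ^ (2 + 1 / 70 : ℝ) ≤ (2 * X) ^ (2 + 1 / 70 : ℝ) :=
      Real.rpow_le_rpow hL0.le hL (by norm_num)
    refine le_trans h2 ?_
    rw [Real.rpow_add (by positivity)]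
    have h3 : (2 * X) ^ (2 : ℝ) = (2 * X) ^ 2 := by
      rw [← Real.rpow_natCast]; norm_num
    rw [h3]
    apply mul_le_mul_of_nonneg_left _ (by positivity)
    rw [Real.rpow_def_of_pos (by positivity)]
    apply Real.exp_le_exp.2
    have : Real.log (2 * X) * (1 / 70) ≤ (0.35 + 15 / 17 * (69 * x)) * (1 / 70) :=
      mul_le_mul_of_nonneg_right hlogX (by norm_num)
    refine le_trans this ?_
    nlinarith
  -- exponential versus polynomial
  have h2 : 304704 * G ^ 2 * x ^ 4 ≤ Real.exp (0.008 * x) := by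
    have h3 : Real.exp (0.008 * x) = Real.exp (0.0016 * x) ^ 5 := by
      rw [← Real.exp_nat_mul]; congr 1; norm_num; ring
    rw [h3]
    have h4 : 0.0016 * x ≤ Real.exp (0.0016 * x) := by
      have := Real.add_one_le_exp (0.0016 * x); linarith
    refine le_trans ?_ (pow_le_pow_left₀ (by positivity) h4 5)
    have h5 : 304704 * G ^ 2 ≤ 0.0016 ^ 5 * x := by
      norm_num
      nlinarith
    calc 304704 * G ^ 2 * x ^ 4 ≤ (0.0016 ^ 5 * x) * x ^ 4 :=
          mul_le_mul_of_nonneg_right h5 (by positivity)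
      _ = (0.0016 * x) ^ 5 := by ring
  have h3 : 304704 * G ^ 2 * x ^ 4 * Real.exp (0.8699 * x) ≤ Real.exp (0.8779 * x) := by
    have h4 : Real.exp (0.8779 * x) = Real.exp (0.008 * x) * Real.exp (0.8699 * x) := by
      rw [← Real.exp_add]; congr 1; ring
    rw [h4]
    exact mul_le_mul_of_nonneg_right h2 (Real.exp_pos _).le
  have h4 : Real.exp 0.005 ≤ 2 := by
    have h5 : Real.exp 0.005 ≤ Real.exp 0.69 := Real.exp_le_exp.2 (by norm_num)
    have h6 : Real.exp 0.69 ≤ 2 := by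
      rw [← Real.le_log_iff_exp_le (by norm_num)]
      have := Real.log_two_gt_d9
      linarith
    linarith
  have hux : u ≤ x := by nlinarith
  have hu0 : 0 < u := by linarith
  have hE0 := Real.exp_pos (0.8699 * x)
  have h5 : Real.exp (0.005 + 0.8699 * x) ≤ 2 * Real.exp (0.8699 * x) := by
    rw [Real.exp_add]
    exact mul_le_mul_of_nonneg_right h4 hE0.le
  -- combine
  have h6 : 8 * (69 * x) ^ 2 * (2 * Real.exp (0.8699 * x)) * (2 * G * u) ^ 2 ≤
      d ^ 2 * (2 * G * u) ^ 2 := by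
    have h7 : 8 * (69 * x) ^ 2 * (2 * Real.exp (0.8699 * x)) * (2 * G * u) ^ 2 =
        304704 * G ^ 2 * (x ^ 2 * u ^ 2) * Real.exp (0.8699 * x) := by ring
    rw [h7]
    have h8 : x ^ 2 * u ^ 2 ≤ x ^ 4 := by
      have : u ^ 2 ≤ x ^ 2 := pow_le_pow_left₀ hu0.le hux 2
      calc x ^ 2 * u ^ 2 ≤ x ^ 2 * x ^ 2 := mul_le_mul_of_nonneg_left this (by positivity)
        _ = x ^ 4 := by ring
    have h9 : 304704 * G ^ 2 * (x ^ 2 * u ^ 2) * Real.exp (0.8699 * x) ≤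
        304704 * G ^ 2 * x ^ 4 * Real.exp (0.8699 * x) := by
      apply mul_le_mul_of_nonneg_right _ hE0.le
      apply mul_le_mul_of_nonneg_left h8 (by positivity)
    calc _ ≤ 304704 * G ^ 2 * x ^ 4 * Real.exp (0.8699 * x) := h9
      _ ≤ Real.exp (0.8779 * x) := h3
      _ ≤ (2 * G * (u * d)) ^ 2 := hd
      _ = d ^ 2 * (2 * G * u) ^ 2 := by ring
  have h7 : 8 * (69 * x) ^ 2 * (2 * Real.exp (0.8699 * x)) ≤ d ^ 2 :=
    le_of_mul_le_mul_right h6 (by positivity)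
  calc 2 * L ^ (2 + 1 / 70 : ℝ) ≤ 2 * ((2 * X) ^ 2 * (2 * Real.exp (0.8699 * x))) := by
        apply mul_le_mul_of_nonneg_left _ (by norm_num)
        exact le_trans h1 (mul_le_mul_of_nonneg_left h5 (by positivity))
    _ = r ^ 2 * (8 * (69 * x) ^ 2 * (2 * Real.exp (0.8699 * x))) := by rw [hr]; ring
    _ ≤ r ^ 2 * d ^ 2 := mul_le_mul_of_nonneg_left h7 (by positivity)
    _ = (r * d) ^ 2 := by ring

end Pool.Agent.PWC
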