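import Pool.Agent.PWC.Pell
import Pool.Agent.PWC.Main

set_option autoImplicit false

/-! Blocks of three consecutive integers: a gain over `(log n)²`. -/

namespace Pool.Agent.PWC

open Pool.Agent.Helper98.PowPart

/-- the chain `8, 408, b 408, ...` -/
def x : ℕ → ℕ
  | 0 => 8
  | (i + 1) => b (x i)

lemma x_succ (i : ℕ) : x (i + 1) = b (x i) := rfl

/-- the chain `5, 41, a 41, ...` -/
def q : ℕ → ℕ
  | 0 => 5
  | (i + 1) => a (q i)

lemma q_succ (i : ℕ) : q (i + 1) = a (q i) := rfl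

lemma four_dvd_x (i : ℕ) : 4 ∣ x i := by
  induction i with
  | zero => exact ⟨2, rfl⟩
  | succ i ih =>
    rw [x_succ]
    exact dvd_trans ⟨3, rfl⟩ (b_dvd ih)

lemma x_dvd (i : ℕ) : x i ∣ x (i + 1) := by
  induction i with
  | zero => decide
  | succ i ih => rw [x_succ (i + 1), x_succ i]; rw [x_succ i] at ih; exact b_dvd ih

lemma x_ge (i : ℕ) : i + 8 ≤ x i := by
  induction i with
  | zero => exact le_refl _
  | succ i ih =>
    rw [x_succ]
    have h1 := two_pow_le_b (x i - 1)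
    rw [show x i - 1 + 1 = x i by omega] at h1
    have h2 : x i - 1 < 2 ^ (x i - 1) := Nat.lt_two_pow_self
    have h3 : x i < 2 ^ (x i - 1) := by
      have h4 : 2 ^ (x i - 1) = 2 * 2 ^ (x i - 2) := by
        rw [← pow_succ']; congr 1; omega
      have h5 : x i - 2 < 2 ^ (x i - 2) := Nat.lt_two_pow_self
      omega
    omega

/-- `x (i+1) / 2 + 1 = a (x i / 2 + 1) * b (x i / 2 - 1)` -/
lemma half_succ (i : ℕ) : x (i + 1) / 2 + 1 = a (x i / 2 + 1) * b (x i / 2 - 1) := by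
  obtain ⟨c, hc⟩ := four_dvd_x i
  obtain ⟨c', hc'⟩ := four_dvd_x (i + 1)
  have h0 := x_ge i
  have hodd : Odd (2 * c - 1) := ⟨c - 1, by omega⟩
  have h1 := b_plus_two hodd
  rw [show 2 * (2 * c - 1) + 2 = x i by omega, ← x_succ,
    show 2 * c - 1 + 2 = x i / 2 + 1 by omega, show 2 * c - 1 = x i / 2 - 1 by omega] at h1
  omega

lemma half_odd (i : ℕ) : Odd (x i / 2 + 1) := by
  obtain ⟨c, hc⟩ := four_dvd_x i
  exact ⟨c, by omega⟩

/-- `q i` divides `x i / 2 + 1` and `x (i+1) / 2 + 1` -/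
lemma q_dvd (i : ℕ) : q i ∣ x i / 2 + 1 ∧ q i ∣ x (i + 1) / 2 + 1 := by
  induction i with
  | zero => exact ⟨by decide, by decide⟩
  | succ i ih =>
    obtain ⟨h1, h2⟩ := ih
    refine ⟨?_, ?_⟩
    · rw [half_succ i, q_succ]
      exact Dvd.dvd.mul_right (a_dvd_of_odd h1 (half_odd i)) _
    · rw [half_succ (i + 1), q_succ]
      exact Dvd.dvd.mul_right (a_dvd_of_odd h2 (half_odd (i + 1))) _

lemma q_pos (i : ℕ) : 0 < q i := by
  cases i with
  | zero => decide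
  | succ i => rw [q_succ]; exact a_pos _

/-- the gain at the index `x (i+1)` -/
lemma gain_x (i : ℕ) : ∃ r : ℕ, x (i + 1) = x i * r ∧ r ^ 2 ∣ b (x (i + 1)) := by
  obtain ⟨r, hr⟩ := x_dvd i
  refine ⟨r, hr, ?_⟩
  have hrpos : 0 < r := by
    rcases Nat.eq_zero_or_pos r with h | h
    · rw [h, mul_zero] at hr
      have := x_ge (i + 1)
      omega
    · exact h
  have h1 : r ∣ b (x i) := by rw [← x_succ, hr]; exact dvd_mul_left _ _
  have h2 := lift hrpos h1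
  rw [← hr] at h2
  refine dvd_trans ?_ h2
  rw [sq]
  exact Nat.mul_dvd_mul_left r h1

/-- the gain at the index `x (i+1) + 2` -/
lemma gain_q (i : ℕ) : ∃ d : ℕ, 0 < d ∧ d ^ 2 ∣ b (x (i + 1) + 2) ∧ q (i + 1) ≤ q i * d := by
  obtain ⟨h1, h2⟩ := q_dvd i
  have h3 := (q_dvd (i + 1)).1
  have h4 : q (i + 1) ∣ b (2 * q i) := by
    rw [q_succ, b_two_mul]
    exact Dvd.dvd.mul_left (dvd_mul_right _ _) 2
  obtain ⟨d, hd0, hd1, hd2⟩ := gain (q_pos i) (q_pos (i + 1)) h2 h3 h4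
  refine ⟨d, hd0, ?_, hd2⟩
  obtain ⟨c, hc⟩ := four_dvd_x (i + 1)
  rw [show x (i + 1) + 2 = 2 * (x (i + 1) / 2 + 1) by omega]
  exact hd1

/-! ### sizes -/

lemma q_lower (i : ℕ) : 4 * x i + 5 ≤ q (i + 1) := by
  induction i with
  | zero =>
    have h1 : x 0 = 8 := rfl
    have h2 : q (0 + 1) = 41 := by decide
    omega
  | succ i ih =>
    rw [q_succ (i + 1), x_succ i]
    have h1 : a (x i + 4) ≤ a (q (i + 1)) := a_mono (by omega)
    rw [a_add_four] at h1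
    have h2 := a_pos (x i)
    omega

lemma q_sq (i : ℕ) : x (i + 1) ^ 2 ≤ q (i + 2) := by
  rw [q_succ (i + 1), x_succ i]
  have h1 := q_lower i
  have h2 : a (2 * x i) ≤ a (q (i + 1)) := a_mono (by omega)
  have h3 : a (2 * x i) = a (x i) * a (x i) + 2 * (b (x i) * b (x i)) := by
    rw [two_mul, (ab_add (x i) (x i)).1]
  rw [sq]
  have h4 : b (x i) * b (x i) ≤ 2 * (b (x i) * b (x i)) := by omega
  omega

lemma b_le_four_pow (k : ℕ) : a k ≤ 3 ^ k := by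
  have h : a k ≤ 3 ^ k ∧ b k ≤ 3 ^ k ∧ a k + 2 * b k ≤ 3 ^ (k + 1) := by
    induction k with
    | zero => decide
    | succ k ih =>
      obtain ⟨h1, h2, h3⟩ := ih
      have h4 := b_le_a k
      have e1 : a (k + 1) = a k + 2 * b k := a_succ k
      have e2 : b (k + 1) = a k + b k := b_succ k
      have e3 : 3 ^ (k + 1 + 1) = 3 * 3 ^ (k + 1) := by rw [pow_succ]; ring
      refine ⟨by omega, by omega, ?_⟩
      rw [e1, e2, e3]
      omega
  exact h.1

/-- for every exponent `c` the chain `q` beats the power `c` of the chain `x` -/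
lemma q_pow (c i : ℕ) (h : 4 * c + 8 ≤ i) : (2 * x (i + 2)) ^ c ≤ q (i + 3) := by
  have h1 := q_sq i
  have h2 : x (i + 1) ≥ i + 9 := x_ge (i + 1)
  rw [q_succ (i + 2)]
  have h3 := two_pow_le_a (q (i + 2) - 1)
  rw [show q (i + 2) - 1 + 1 = q (i + 2) by have := q_pos (i + 2); omega] at h3
  refine le_trans ?_ h3
  have h4 : x (i + 2) ≤ 2 ^ (2 * x (i + 1)) := by
    rw [x_succ (i + 1)]
    calc b (x (i + 1)) ≤ a (x (i + 1)) := b_le_a _
      _ ≤ 3 ^ x (i + 1) := b_le_four_pow _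
      _ ≤ 4 ^ x (i + 1) := Nat.pow_le_pow_left (by norm_num) _
      _ = 2 ^ (2 * x (i + 1)) := by rw [pow_mul]; norm_num
  calc (2 * x (i + 2)) ^ c ≤ (2 * 2 ^ (2 * x (i + 1))) ^ c :=
        Nat.pow_le_pow_left (Nat.mul_le_mul_left 2 h4) _
    _ = 2 ^ ((2 * x (i + 1) + 1) * c) := by rw [← pow_succ', ← pow_mul]
    _ ≤ 2 ^ (q (i + 2) - 1) := by
        apply Nat.pow_le_pow_right (by norm_num)
        have h5 : (2 * x (i + 1) + 1) * c + 1 ≤ x (i + 1) ^ 2 := by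
          have h6 : 4 * c + 17 ≤ x (i + 1) := by omega
          nlinarith
        omega

/-- the doubled `b` has logarithm at most the index -/
lemma log_two_b {k : ℕ} (hk : 3 ≤ k) : Real.log (2 * (b k : ℝ)) ≤ (k : ℝ) := by
  have h1 := (growth k).2
  have hb : (0 : ℝ) < (b k : ℝ) := by exact_mod_cast b_pos (by omega)
  have h2 := Real.log_le_log (by positivity) h1
  have e0 : Real.log (1.4143 * (2.4143 : ℝ) ^ k) = Real.log 1.4143 + k * Real.log 2.4143 := by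
    rw [Real.log_mul (by norm_num) (by positivity), Real.log_pow]
  rw [e0] at h2
  have h3 : Real.log (1.4143 : ℝ) ≤ 0.35 := by
    have h4 : (1.4143 : ℝ) ^ 2 ≤ 2.001 := by norm_num
    have h5 := Real.log_le_log (by positivity) h4
    rw [Real.log_pow] at h5
    have h6 : Real.log (2.001 : ℝ) ≤ 0.7 := by
      have h7 : (2.001 : ℝ) = 2 * 1.0005 := by norm_num
      rw [h7, Real.log_mul (by norm_num) (by norm_num)]
      have h8 := Real.log_le_sub_one_of_pos (show (0 : ℝ) < 1.0005 by norm_num)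
      have h9 := Real.log_two_lt_d9
      linarith
    push_cast at h5
    linarith
  have h4 : (k : ℝ) * Real.log 2.4143 ≤ (k : ℝ) * (15 / 17) :=
    mul_le_mul_of_nonneg_left log_rho.le (Nat.cast_nonneg k)
  have h5 : (3 : ℝ) ≤ (k : ℝ) := by exact_mod_cast hk
  linarith

lemma three_dvd_block (n l : ℕ) (hl : 2 ≤ l) :
    n * (n + 1) * (n + 2) ∣ ∏ j ∈ Finset.range (l + 1), (n + j) := by
  have h1 : ∏ j ∈ Finset.range 3, (n + j) ∣ ∏ j ∈ Finset.range (l + 1), (n + j) := by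
    apply Finset.prod_dvd_prod_of_subset
    intro j hj
    rw [Finset.mem_range] at *
    omega
  rw [Finset.prod_range_succ, Finset.prod_range_succ, Finset.prod_range_one, Nat.add_zero] at h1
  exact h1

lemma sq_le_two_pow {k : ℕ} (hk : 4 ≤ k) : k ^ 2 ≤ 2 ^ k := by
  induction hk with
  | refl => norm_num
  | @step m hm ih =>
    have hm' : 4 ≤ m := hm
    rw [Nat.succ_eq_add_one, pow_succ 2 m]
    nlinarith

lemma exp_le_four (k : ℕ) : Real.exp (k : ℝ) ≤ 4 ^ k := by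
  have h1 : Real.exp (k : ℝ) = Real.exp 1 ^ k := by
    rw [← Real.exp_nat_mul, mul_one]
  rw [h1]
  have h2 := Real.exp_one_lt_d9
  exact pow_le_pow_left₀ (Real.exp_pos 1).le (by linarith) k

/-- the size of the gain -/
lemma gain_size (A j : ℕ) (hj : 4 * (A + 2) + 8 ≤ j) (d : ℕ)
    (hd : q (j + 4) ≤ q (j + 3) * d) :
    8 * x (j + 3) ^ 2 * 4 ^ ((2 * x (j + 2)) ^ A) ≤ d ^ 2 := by
  have h1 := q_pow (A + 2) j hj
  have hy : j + 10 ≤ x (j + 2) := x_ge (j + 2)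
  set y := x (j + 2) with hydef
  set L := q (j + 3) with hL
  have hLpos : 0 < L := q_pos _
  -- `5 + 4 y + 2 (2y)^A ≤ L`
  have h2 : 5 + 4 * y + 2 * (2 * y) ^ A ≤ L := by
    refine le_trans ?_ h1
    have h3 : 1 ≤ (2 * y) ^ A := Nat.one_le_pow _ _ (by omega)
    rw [pow_add]
    have h4 : 5 + 4 * y + 2 ≤ (2 * y) ^ 2 := by nlinarith
    have h5 : (5 + 4 * y + 2) * (2 * y) ^ A ≤ (2 * y) ^ 2 * (2 * y) ^ A :=
      Nat.mul_le_mul_right _ h4
    have h6 : 5 + 4 * y ≤ (5 + 4 * y) * (2 * y) ^ A := Nat.le_mul_of_pos_right _ h3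
    nlinarith
  have hx : x (j + 3) ≤ 2 ^ (2 * y) := by
    rw [show j + 3 = j + 2 + 1 by ring, x_succ (j + 2), ← hydef]
    calc b y ≤ a y := b_le_a _
      _ ≤ 3 ^ y := b_le_four_pow _
      _ ≤ 4 ^ y := Nat.pow_le_pow_left (by norm_num) _
      _ = 2 ^ (2 * y) := by rw [pow_mul]; norm_num
  have hq : 2 ^ (L - 1) ≤ L * d := by
    have h3 := two_pow_le_a (L - 1)
    rw [show L - 1 + 1 = L by omega, hL, ← q_succ (j + 3), ← hL] at h3
    exact le_trans h3 hd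
  have hL4 : 4 ≤ L := by omega
  have h3 : (2 ^ (L - 1)) ^ 2 ≤ (L * d) ^ 2 := Nat.pow_le_pow_left hq 2
  have h4 : L ^ 2 * (8 * x (j + 3) ^ 2 * 4 ^ ((2 * y) ^ A)) ≤ L ^ 2 * d ^ 2 := by
    refine le_trans ?_ (le_trans h3 (le_of_eq (by ring)))
    calc L ^ 2 * (8 * x (j + 3) ^ 2 * 4 ^ ((2 * y) ^ A))
        ≤ 2 ^ L * (8 * (2 ^ (2 * y)) ^ 2 * 4 ^ ((2 * y) ^ A)) := by
          apply Nat.mul_le_mul (sq_le_two_pow hL4)
          apply Nat.mul_le_mul_right
          apply Nat.mul_le_mul_left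
          exact Nat.pow_le_pow_left hx 2
      _ = 2 ^ (L + 3 + 4 * y + 2 * (2 * y) ^ A) := by
          rw [show (4 : ℕ) = 2 ^ 2 by norm_num, ← pow_mul, ← pow_mul,
            show (8 : ℕ) = 2 ^ 3 by norm_num, ← pow_add, ← pow_add, ← pow_add]
          congr 1
          ring
      _ ≤ 2 ^ ((L - 1) * 2) := by
          apply Nat.pow_le_pow_right (by norm_num)
          omega
      _ = (2 ^ (L - 1)) ^ 2 := by rw [pow_mul]
  exact Nat.le_of_mul_le_mul_left h4 (by positivity)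

/-- **Theorem for blocks of length at least three.** -/
theorem tower (A l : ℕ) (hl : 2 ≤ l) (n₀ : ℕ) : ∃ n : ℕ, n₀ ≤ n ∧
    (n : ℝ) ^ 2 * Real.log n ^ 2 * Real.exp (Real.log (Real.log (Real.log n)) ^ A) <
      (powerfulPart (∏ j ∈ Finset.range (l + 1), (n + j)) : ℝ) := by
  obtain ⟨j, hj1, hj0⟩ : ∃ j : ℕ, 4 * (A + 2) + 8 ≤ j ∧ n₀ ≤ j :=
    ⟨4 * (A + 2) + 8 + n₀, by omega, by omega⟩
  obtain ⟨r, hr1, hr2⟩ := gain_x (j + 3)
  obtain ⟨d, hd0, hd1, hd2⟩ := gain_q (j + 3)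
  have hsize := gain_size A j hj1 d hd2
  set X : ℕ := x (j + 3 + 1) with hX
  have hXge : j + 12 ≤ X := x_ge (j + 3 + 1)
  have hxge : j + 11 ≤ x (j + 3) := x_ge (j + 3)
  have hyge : j + 10 ≤ x (j + 2) := x_ge (j + 2)
  have hXev : Even X := by
    obtain ⟨c, hc⟩ := four_dvd_x (j + 3 + 1)
    exact ⟨2 * c, by omega⟩
  set n : ℕ := 2 * (b X * b (X + 2)) with hn
  have e1 : n + 1 = a (X + 1) ^ 2 := (third hXev).symm
  have e2 : n + 2 = 2 * b (X + 1) ^ 2 := by have := norm_odd hXev.add_one; omega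
  have hn2 : 2 ^ X ≤ n := by
    have h1 := two_pow_le_b (X - 1)
    rw [show X - 1 + 1 = X by omega] at h1
    have h2 : 0 < b (X + 2) := b_pos (by omega)
    have h3 : 2 ^ X = 2 * 2 ^ (X - 1) := by
      rw [← pow_succ']; congr 1; omega
    rw [h3, hn]
    nlinarith
  have hn_ge : n₀ ≤ n := by
    have h2 : X < 2 ^ X := Nat.lt_two_pow_self
    omega
  have hnpos : 0 < n := lt_of_lt_of_le (by positivity) hn2
  refine ⟨n, hn_ge, ?_⟩
  have hdvd : (a (X + 1) * b (X + 1) * (r * d)) ^ 2 ∣ ∏ j ∈ Finset.range (l + 1), (n + j) := by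
    refine dvd_trans ?_ (three_dvd_block n l hl)
    have h0 : r ^ 2 * d ^ 2 ∣ n := by
      rw [hn]
      exact Dvd.dvd.mul_left (Nat.mul_dvd_mul hr2 hd1) 2
    have h1 : a (X + 1) ^ 2 ∣ n + 1 := dvd_of_eq e1.symm
    have h2 : b (X + 1) ^ 2 ∣ n + 2 := by rw [e2]; exact dvd_mul_left _ _
    have h3 := Nat.mul_dvd_mul (Nat.mul_dvd_mul h0 h1) h2
    refine dvd_trans (dvd_of_eq ?_) h3
    ring
  have hpp : ((a (X + 1) * b (X + 1) * (r * d)) ^ 2 : ℕ) ≤
      powerfulPart (∏ j ∈ Finset.range (l + 1), (n + j)) :=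
    sq_le_powerfulPart (block_ne_zero hnpos) hdvd
  refine lt_of_lt_of_le ?_ (by exact_mod_cast hpp :
    (((a (X + 1) * b (X + 1) * (r * d)) ^ 2 : ℕ) : ℝ) ≤ _)
  push_cast
  have hXr : (12 : ℝ) ≤ (X : ℝ) := by
    have : 12 ≤ X := by omega
    exact_mod_cast this
  have hnr : (0 : ℝ) < (n : ℝ) := by exact_mod_cast hnpos
  have hL1 : (5 : ℝ) ≤ Real.log (n : ℝ) := by
    have h2 : ((2 : ℝ)) ^ X ≤ (n : ℝ) := by exact_mod_cast hn2
    have h3 := Real.log_le_log (by positivity) h2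
    rw [Real.log_pow] at h3
    have h4 := Real.log_two_gt_d9
    nlinarith
  have hL2 : Real.log (n : ℝ) ≤ 2 * (X : ℝ) := by
    have h1 : (n : ℝ) ≤ (a (X + 1) : ℝ) ^ 2 := by
      have h2 : n ≤ a (X + 1) ^ 2 := by omega
      exact_mod_cast h2
    have h3 := Real.log_le_log hnr h1
    have h4 := log_a_sq_le (X + 1)
    push_cast at h4
    linarith
  have hLL1 : (1 : ℝ) ≤ Real.log (Real.log (n : ℝ)) := by
    have h1 := Real.log_le_log (by norm_num : (0 : ℝ) < 4) (by linarith : (4 : ℝ) ≤ Real.log n)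
    have h2 : Real.log (4 : ℝ) = 2 * Real.log 2 := by
      rw [show (4 : ℝ) = 2 ^ 2 by norm_num, Real.log_pow]; norm_num
    have h4 := Real.log_two_gt_d9
    linarith
  have hLL2 : Real.log (Real.log (n : ℝ)) ≤ (x (j + 3) : ℝ) := by
    have h1 := Real.log_le_log (by linarith) hL2
    have h2 := log_two_b (k := x (j + 3)) (by omega)
    rw [← x_succ (j + 3), ← hX] at h2
    linarith
  have hM1 : 0 ≤ Real.log (Real.log (Real.log (n : ℝ))) := Real.log_nonneg hLL1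
  have hM2 : Real.log (Real.log (Real.log (n : ℝ))) ≤ (x (j + 2) : ℝ) := by
    have h1 := Real.log_le_log (by linarith) hLL2
    have h2 := log_two_b (k := x (j + 2)) (by omega)
    rw [← x_succ (j + 2)] at h2
    have h3 : (0 : ℝ) < (x (j + 2 + 1) : ℝ) := by
      have : 0 < x (j + 2 + 1) := by have := x_ge (j + 2 + 1); omega
      exact_mod_cast this
    have h4 : Real.log (x (j + 2 + 1) : ℝ) ≤ Real.log (2 * (x (j + 2 + 1) : ℝ)) :=
      Real.log_le_log h3 (by linarith)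
    exact le_trans h1 (le_trans h4 h2)
  have hexp : Real.exp (Real.log (Real.log (Real.log (n : ℝ))) ^ A) ≤
      (4 : ℝ) ^ ((2 * x (j + 2)) ^ A) := by
    refine le_trans ?_ (exp_le_four _)
    apply Real.exp_le_exp.2
    push_cast
    apply pow_le_pow_left₀ hM1
    have : (0 : ℝ) ≤ (x (j + 2) : ℝ) := Nat.cast_nonneg _
    linarith
  have hA : (n : ℝ) ^ 2 < 2 * ((a (X + 1) : ℝ) * (b (X + 1) : ℝ)) ^ 2 := by
    have e1' : (n : ℝ) + 1 = (a (X + 1) : ℝ) ^ 2 := by exact_mod_cast e1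
    have e2' : (n : ℝ) + 2 = 2 * (b (X + 1) : ℝ) ^ 2 := by exact_mod_cast e2
    calc (n : ℝ) ^ 2 < ((n : ℝ) + 1) * ((n : ℝ) + 2) := by nlinarith
      _ = 2 * ((a (X + 1) : ℝ) * (b (X + 1) : ℝ)) ^ 2 := by rw [e1', e2']; ring
  have hr1' : (X : ℝ) = (x (j + 3) : ℝ) * (r : ℝ) := by exact_mod_cast hr1
  have hsize' : 8 * (x (j + 3) : ℝ) ^ 2 * (4 : ℝ) ^ ((2 * x (j + 2)) ^ A) ≤ (d : ℝ) ^ 2 := by
    exact_mod_cast hsize
  set L : ℝ := Real.log (n : ℝ) with hL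
  set F : ℝ := (4 : ℝ) ^ ((2 * x (j + 2)) ^ A) with hF
  set G : ℝ := Real.exp (Real.log (Real.log L) ^ A) with hG
  set S : ℝ := (a (X + 1) : ℝ) * (b (X + 1) : ℝ) with hS
  have hF0 : 0 < F := by positivity
  have hG0 : 0 < G := Real.exp_pos _
  have hkey : 2 * (L ^ 2 * G) ≤ (r * d : ℝ) ^ 2 := by
    have h1 : L ^ 2 ≤ (2 * (X : ℝ)) ^ 2 := pow_le_pow_left₀ (by linarith) hL2 2
    have h2 : L ^ 2 * G ≤ (2 * (X : ℝ)) ^ 2 * F :=
      mul_le_mul h1 hexp hG0.le (by positivity)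
    calc 2 * (L ^ 2 * G) ≤ 2 * ((2 * (X : ℝ)) ^ 2 * F) := by linarith
      _ = (r : ℝ) ^ 2 * (8 * (x (j + 3) : ℝ) ^ 2 * F) := by rw [hr1']; ring
      _ ≤ (r : ℝ) ^ 2 * (d : ℝ) ^ 2 := mul_le_mul_of_nonneg_left hsize' (by positivity)
      _ = (r * d : ℝ) ^ 2 := by ring
  have hS0 : 0 < S ^ 2 := by
    have : (0 : ℝ) < (n : ℝ) ^ 2 := by positivity
    linarith
  have hq0 : 0 < L ^ 2 * G := by
    have : 0 < L := by linarith
    positivity
  calc (n : ℝ) ^ 2 * L ^ 2 * G = (n : ℝ) ^ 2 * (L ^ 2 * G) := by ring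
    _ < (2 * S ^ 2) * (L ^ 2 * G) := mul_lt_mul_of_pos_right hA hq0
    _ = S ^ 2 * (2 * (L ^ 2 * G)) := by ring
    _ ≤ S ^ 2 * (r * d : ℝ) ^ 2 := mul_le_mul_of_nonneg_left hkey hS0.le
    _ = (S * (r * d)) ^ 2 := by ring

end Pool.Agent.PWC
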